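import Mathlib
import Pool.Agent.H73.G.R8.Y776.AxJ.Lie

/-!
# The Maurer–Cartan form of the period matrix of a Weierstrass curve
-/

set_option autoImplicit false

open Finset Module

noncomputable section

namespace Pool.Agent.Y776.AxJ

/-- the numbers `τ`, `η₁`, `g₂`, `g₃` of a normalised lattice -/
structure Qd where
  t : ℂ
  h : ℂ
  p : ℂ
  q : ℂ

/-- the discriminant -/
def Qd.dl (x : Qd) : ℂ := x.p ^ 3 - 27 * x.q ^ 2

/-- nondegenerate data -/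
structure Qd.Ok (x : Qd) : Prop where
  dl : x.dl ≠ 0
  p0 : x.p ≠ 0
  q0 : x.q ≠ 0

variable {δ δ' : Derivation ℚ ℂ ℂ} {x : Qd} {b : ℂ}

theorem dmul (δ : Derivation ℚ ℂ ℂ) (a c : ℂ) : δ (a * c) = δ a * c + a * δ c := by
  rw [Derivation.leibniz, smul_eq_mul, smul_eq_mul]
  ring

theorem dnat (δ : Derivation ℚ ℂ ℂ) (n : ℕ) [n.AtLeastTwo] : δ (ofNat(n) : ℂ) = 0 :=
  δ.map_natCast n

theorem done' (δ : Derivation ℚ ℂ ℂ) : δ 1 = 0 := δ.map_one_eq_zero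

theorem dsq (δ : Derivation ℚ ℂ ℂ) (a : ℂ) : δ (a ^ 2) = 2 * a * δ a := by
  rw [pow_two, dmul]
  ring

theorem dinvn (δ : Derivation ℚ ℂ ℂ) (a : ℂ) (n : ℕ) [n.AtLeastTwo] :
    δ (a / ofNat(n)) = δ a / ofNat(n) := by
  have hn : (ofNat(n) : ℂ) ≠ 0 := OfNat.ofNat_ne_zero n
  have h1 : a = a / ofNat(n) * ofNat(n) := (div_mul_cancel₀ _ hn).symm
  have h2 := congrArg δ h1
  rw [dmul, dnat, mul_zero, add_zero] at h2
  rw [h2, mul_div_cancel_right₀ _ hn]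

/-- the scaling component -/
def fa (x : Qd) (δ : Derivation ℚ ℂ ℂ) : ℂ := (-x.p ^ 2 * δ x.p + 18 * x.q * δ x.q) / (4 * x.dl)

/-- the component in the direction of `τ` -/
def fb (x : Qd) (δ : Derivation ℚ ℂ ℂ) : ℂ := (9 * x.q * δ x.p - 6 * x.p * δ x.q) / (2 * x.dl)

theorem d_p (hx : x.dl ≠ 0) : δ x.p = -4 * fa x δ * x.p - 6 * fb x δ * x.q := by
  have h1 : -4 * fa x δ * x.p - 6 * fb x δ * x.q = (x.p ^ 3 - 27 * x.q ^ 2) * δ x.p / x.dl := by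
    rw [fa, fb]
    field_simp
    ring
  rw [h1, ← Qd.dl, mul_div_cancel_left₀ _ hx]

theorem d_q (hx : x.dl ≠ 0) : δ x.q = -6 * fa x δ * x.q - fb x δ * x.p ^ 2 / 3 := by
  have h1 : -6 * fa x δ * x.q - fb x δ * x.p ^ 2 / 3 = (x.p ^ 3 - 27 * x.q ^ 2) * δ x.q / x.dl := by
    rw [fa, fb]
    field_simp
    ring
  rw [h1, ← Qd.dl, mul_div_cancel_left₀ _ hx]

theorem brk (δ δ' : Derivation ℚ ℂ ℂ) (a : ℂ) : ⁅δ, δ'⁆ a = δ (δ' a) - δ' (δ a) :=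
  Derivation.commutator_apply _

/-- the structure equations of the base -/
theorem fab_brk (hx : x.dl ≠ 0) :
    fa x ⁅δ, δ'⁆ = δ (fa x δ') - δ' (fa x δ) ∧
    fb x ⁅δ, δ'⁆ = δ (fb x δ') - δ' (fb x δ) - 2 * (fa x δ * fb x δ' - fa x δ' * fb x δ) := by
  have hd : x.p ^ 3 - 27 * x.q ^ 2 ≠ 0 := hx
  have p1 : δ x.p = -4 * fa x δ * x.p - 6 * fb x δ * x.q := d_p hx
  have q1 : δ x.q = -6 * fa x δ * x.q - fb x δ * x.p ^ 2 / 3 := d_q hx
  have p2 : δ' x.p = -4 * fa x δ' * x.p - 6 * fb x δ' * x.q := d_p hx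
  have q2 : δ' x.q = -6 * fa x δ' * x.q - fb x δ' * x.p ^ 2 / 3 := d_q hx
  have p3 : ⁅δ, δ'⁆ x.p = -4 * fa x ⁅δ, δ'⁆ * x.p - 6 * fb x ⁅δ, δ'⁆ * x.q := d_p hx
  have q3 : ⁅δ, δ'⁆ x.q = -6 * fa x ⁅δ, δ'⁆ * x.q - fb x ⁅δ, δ'⁆ * x.p ^ 2 / 3 := d_q hx
  rw [brk] at p3 q3
  have e1 := congrArg δ p2
  have e2 := congrArg δ q2
  have e3 := congrArg δ' p1
  have e4 := congrArg δ' q1
  simp only [map_sub, map_neg, dmul, dnat, dinvn, dsq] at e1 e2 e3 e4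
  rw [p1, q1] at e1 e2
  rw [p2, q2] at e3 e4
  rw [e1, e3] at p3
  rw [e2, e4] at q3
  have E1 : -4 * (fa x ⁅δ, δ'⁆ - (δ (fa x δ') - δ' (fa x δ))) * x.p - 6 * (fb x ⁅δ, δ'⁆ -
      (δ (fb x δ') - δ' (fb x δ) - 2 * (fa x δ * fb x δ' - fa x δ' * fb x δ))) * x.q = 0 := by
    linear_combination -p3
  have E2 : -6 * (fa x ⁅δ, δ'⁆ - (δ (fa x δ') - δ' (fa x δ))) * x.q - (fb x ⁅δ, δ'⁆ -
      (δ (fb x δ') - δ' (fb x δ) - 2 * (fa x δ * fb x δ' - fa x δ' * fb x δ))) * x.p ^ 2 / 3 = 0 := by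
    linear_combination -q3
  set A := fa x ⁅δ, δ'⁆ - (δ (fa x δ') - δ' (fa x δ)) with hA
  set B := fb x ⁅δ, δ'⁆ -
      (δ (fb x δ') - δ' (fb x δ) - 2 * (fa x δ * fb x δ' - fa x δ' * fb x δ)) with hB
  have hA0 : (x.p ^ 3 - 27 * x.q ^ 2) * A = 0 := by
    linear_combination (-x.p ^ 2 / 4) * E1 + (9 / 2 * x.q) * E2
  have hB0 : (x.p ^ 3 - 27 * x.q ^ 2) * B = 0 := by
    linear_combination (9 / 2 * x.q) * E1 + (-3 * x.p) * E2
  have hA1 := (mul_eq_zero.1 hA0).resolve_left hd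
  have hB1 := (mul_eq_zero.1 hB0).resolve_left hd
  exact ⟨sub_eq_zero.1 hA1, sub_eq_zero.1 hB1⟩

/-- the components of the form -/
def fu (b : ℂ) (x : Qd) (δ : Derivation ℚ ℂ ℂ) : ℂ :=
  -b * (δ x.h + 2 * fa x δ * x.h + fb x δ * x.h ^ 2 + fb x δ * x.p / 12)

/-- the components of the form -/
def fv (x : Qd) (δ : Derivation ℚ ℂ ℂ) : ℂ := fa x δ + fb x δ * x.h

/-- the components of the form -/
def fs (b : ℂ) (x : Qd) (δ : Derivation ℚ ℂ ℂ) : ℂ := δ x.t - fb x δ / b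

/-- **the Maurer–Cartan form** -/
def Th (b : ℂ) (x : Qd) (δ : Derivation ℚ ℂ ℂ) : Fin 3 → ℂ :=
  ![fu b x δ, x.t * fu b x δ - fv x δ, fs b x δ + x.t ^ 2 * fu b x δ - 2 * x.t * fv x δ]

theorem Th0 : Th b x δ 0 = fu b x δ := rfl
theorem Th1 : Th b x δ 1 = x.t * fu b x δ - fv x δ := rfl
theorem Th2 : Th b x δ 2 = fs b x δ + x.t ^ 2 * fu b x δ - 2 * x.t * fv x δ := rfl

theorem fa_add : fa x (δ + δ') = fa x δ + fa x δ' := by
  simp only [fa, Derivation.add_apply]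
  ring

theorem fb_add : fb x (δ + δ') = fb x δ + fb x δ' := by
  simp only [fb, Derivation.add_apply]
  ring

theorem fa_smul (c : ℂ) : fa x (c • δ) = c * fa x δ := by
  simp only [fa, Derivation.smul_apply, smul_eq_mul]
  ring

theorem fb_smul (c : ℂ) : fb x (c • δ) = c * fb x δ := by
  simp only [fb, Derivation.smul_apply, smul_eq_mul]
  ring

theorem Th_add : Th b x (δ + δ') = Th b x δ + Th b x δ' := by
  apply ext3 <;> simp only [Pi.add_apply, Th0, Th1, Th2, fu, fv, fs, fa_add, fb_add,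
    Derivation.add_apply] <;> ring

theorem Th_smul (c : ℂ) : Th b x (c • δ) = c • Th b x δ := by
  apply ext3 <;> simp only [Pi.smul_apply, smul_eq_mul, Th0, Th1, Th2, fu, fv, fs, fa_smul, fb_smul,
    Derivation.smul_apply] <;> ring

/-- **the structure equation** -/
theorem Th_brk (hx : x.dl ≠ 0) (hb : b ≠ 0) (h1 : δ b = 0) (h2 : δ' b = 0) :
    Th b x ⁅δ, δ'⁆ = (fun i => δ (Th b x δ' i)) - (fun i => δ' (Th b x δ i)) +
      br (Th b x δ) (Th b x δ') := by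
  obtain ⟨E1, E2⟩ := fab_brk (δ := δ) (δ' := δ') hx
  have p1 : δ x.p = -4 * fa x δ * x.p - 6 * fb x δ * x.q := d_p hx
  have p2 : δ' x.p = -4 * fa x δ' * x.p - 6 * fb x δ' * x.q := d_p hx
  have hbi : ∀ (d : Derivation ℚ ℂ ℂ) (a : ℂ), d b = 0 → d (a / b) = d a / b := by
    intro d a hd
    have h3 : a = a / b * b := by field_simp
    have h4 := congrArg d h3
    rw [dmul, hd, mul_zero, add_zero] at h4
    rw [h4]
    field_simp
  apply ext3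
  · simp only [Pi.add_apply, Pi.sub_apply, br0, Th0, Th1, fu, fv, E1, E2, brk, map_add, map_neg,
      dmul, dnat, dinvn, dsq, h1, h2, p1, p2, neg_zero, zero_mul, zero_add]
    ring
  · simp only [Pi.add_apply, Pi.sub_apply, br1, Th0, Th1, Th2, fu, fv, fs, E1, E2, brk, map_add,
      map_sub, map_neg, dmul, dnat, dinvn, dsq, h1, h2, hbi δ _ h1, hbi δ' _ h2, p1, p2, neg_zero,
      zero_mul, zero_add]
    field_simp
    ring
  · simp only [Pi.add_apply, Pi.sub_apply, br2, Th0, Th1, Th2, fu, fv, fs, E1, E2, brk, map_add,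
      map_sub, map_neg, dmul, dnat, dinvn, dsq, h1, h2, hbi δ _ h1, hbi δ' _ h2, p1, p2, neg_zero,
      zero_mul, zero_add]
    field_simp
    ring

end Pool.Agent.Y776.AxJ
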