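import Mathlib
import Pool.Agent.H73.G.R8.Y776.AxJ.Form

/-!
# The adjoint representation of the period matrix
-/

set_option autoImplicit false

open Finset Module

noncomputable section

namespace Pool.Agent.Y776.AxJ

variable {δ δ' : Derivation ℚ ℂ ℂ} {x y : Qd} {b : ℂ}

theorem ddiv (δ : Derivation ℚ ℂ ℂ) (a : ℂ) {c : ℂ} (hc : c ≠ 0) :
    δ (a / c) = (δ a * c - a * δ c) / c ^ 2 := by
  have h1 : a = a / c * c := (div_mul_cancel₀ _ hc).symm
  have h2 := congrArg δ h1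
  rw [dmul] at h2
  have h3 : δ a * c - a * δ c = δ (a / c) * c ^ 2 := by
    rw [h2]
    field_simp
    ring
  rw [h3, mul_div_cancel_right₀ _ (pow_ne_zero 2 hc)]

/-- the modular parameter `g₂³ / g₃²` -/
def gg (x : Qd) : ℂ := x.p ^ 3 / x.q ^ 2

/-- the coefficients of the connection -/
def rh (g : ℂ) : Fin 3 → ℂ := ![1 / (8 * (g - 27)), (18 - g) / (4 * g * (g - 27)), 3 / (2 * g * (g - 27))]

theorem rh0 (g : ℂ) : rh g 0 = 1 / (8 * (g - 27)) := rfl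
theorem rh1 (g : ℂ) : rh g 1 = (18 - g) / (4 * g * (g - 27)) := rfl
theorem rh2 (g : ℂ) : rh g 2 = 3 / (2 * g * (g - 27)) := rfl

/-- the connection form -/
def Av (x : Qd) (δ : Derivation ℚ ℂ ℂ) : Fin 3 → ℂ :=
  ![fb x δ * x.p ^ 2 / (12 * x.q), fb x δ * (3 * x.q / x.p - x.p ^ 2 / (6 * x.q)), fb x δ * x.q / x.p]

theorem Av0 : Av x δ 0 = fb x δ * x.p ^ 2 / (12 * x.q) := rfl
theorem Av1 : Av x δ 1 = fb x δ * (3 * x.q / x.p - x.p ^ 2 / (6 * x.q)) := rfl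
theorem Av2 : Av x δ 2 = fb x δ * x.q / x.p := rfl

theorem d_gg (h : x.Ok) : δ (gg x) = -18 * fb x δ * x.p ^ 2 / x.q + 2 / 3 * fb x δ * x.p ^ 5 / x.q ^ 3 := by
  have hp := h.p0
  have hq := h.q0
  have h3 : x.p ^ 3 = x.p * x.p ^ 2 := by ring
  rw [gg, ddiv _ _ (pow_ne_zero 2 hq), h3, dmul, dsq, dsq, d_p h.dl, d_q h.dl]
  field_simp
  ring

theorem gg_sub (h : x.Ok) : gg x - 27 = x.dl / x.q ^ 2 := by
  have hq := h.q0
  rw [gg, Qd.dl]
  field_simp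

theorem gg_27 (h : x.Ok) : gg x - 27 ≠ 0 := by
  rw [gg_sub h]
  exact div_ne_zero h.dl (pow_ne_zero 2 h.q0)

theorem Av_eq (h : x.Ok) : Av x δ = δ (gg x) • rh (gg x) := by
  have hp := h.p0
  have hq := h.q0
  have hd := h.dl
  have e1 : δ (gg x) = 2 / 3 * fb x δ * x.p ^ 2 * x.dl / x.q ^ 3 := by
    rw [d_gg h, Qd.dl]
    field_simp
    ring
  apply ext3
  · rw [Pi.smul_apply, smul_eq_mul, rh0, Av0, gg_sub h, e1]
    field_simp
    ring
  · rw [Pi.smul_apply, smul_eq_mul, rh1, Av1, gg_sub h, e1, gg]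
    field_simp
    ring
  · rw [Pi.smul_apply, smul_eq_mul, rh2, Av2, gg_sub h, e1, gg]
    field_simp

/-- the adjoint representation -/
def RR (b : ℂ) (x : Qd) (X : Fin 3 → ℂ) : Fin 3 → ℂ :=
  ![b * x.p / x.q * ((x.t * x.h + 1 / b) ^ 2 * X 0 - 2 * (x.t * x.h + 1 / b) * x.h * X 1 + x.h ^ 2 * X 2),
    b * (-(x.t * (x.t * x.h + 1 / b)) * X 0 + (2 * x.t * x.h + 1 / b) * X 1 - x.h * X 2),
    b * x.q / x.p * (x.t ^ 2 * X 0 - 2 * x.t * X 1 + X 2)]

theorem RR0 {X : Fin 3 → ℂ} : RR b x X 0 = b * x.p / x.q * ((x.t * x.h + 1 / b) ^ 2 * X 0 -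
    2 * (x.t * x.h + 1 / b) * x.h * X 1 + x.h ^ 2 * X 2) := rfl
theorem RR1 {X : Fin 3 → ℂ} : RR b x X 1 = b * (-(x.t * (x.t * x.h + 1 / b)) * X 0 +
    (2 * x.t * x.h + 1 / b) * X 1 - x.h * X 2) := rfl
theorem RR2 {X : Fin 3 → ℂ} : RR b x X 2 = b * x.q / x.p * (x.t ^ 2 * X 0 - 2 * x.t * X 1 + X 2) := rfl

theorem RR_add (X Y : Fin 3 → ℂ) : RR b x (X + Y) = RR b x X + RR b x Y := by
  apply ext3 <;> simp only [Pi.add_apply, RR0, RR1, RR2] <;> ring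

theorem RR_smul (c : ℂ) (X : Fin 3 → ℂ) : RR b x (c • X) = c • RR b x X := by
  apply ext3 <;> simp only [Pi.smul_apply, smul_eq_mul, RR0, RR1, RR2] <;> ring

/-- **the differential equation of the adjoint representation** -/
theorem d_RR (h : x.Ok) (hb : b ≠ 0) (hδ : δ b = 0) {X : Fin 3 → ℂ} (hX : ∀ i, δ (X i) = 0) :
    (fun i => δ (RR b x X i)) = RR b x (br (Th b x δ) X) + br (Av x δ) (RR b x X) := by
  have hp := h.p0
  have hq := h.q0
  have X0 := hX 0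
  have X1 := hX 1
  have X2 := hX 2
  have h1 : δ 1 = 0 := done' δ
  have hpb : δ (1 / b) = 0 := by rw [ddiv _ _ hb, h1, hδ]; simp
  apply ext3
  · simp only [Pi.add_apply, RR0, br0, br1, br2, RR1, Th0, Th1, Th2, Av0, Av1, ddiv _ _ hq, map_add,
      map_sub, dmul, dsq, dnat, hδ, hpb, X0, X1, X2, d_p h.dl, d_q h.dl, fu, fv, fs]
    field_simp
    ring
  · simp only [Pi.add_apply, RR0, br0, br1, br2, RR1, RR2, Th0, Th1, Th2, Av0, Av2, map_add,
      map_sub, map_neg, dmul, dsq, dnat, hδ, hpb, X0, X1, X2, d_p h.dl, d_q h.dl, fu, fv, fs]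
    field_simp
    ring
  · simp only [Pi.add_apply, RR1, br0, br1, br2, RR2, Th0, Th1, Th2, Av1, Av2, ddiv _ _ hp, map_add,
      map_sub, dmul, dsq, dnat, hδ, hpb, X0, X1, X2, d_p h.dl, d_q h.dl, fu, fv, fs]
    field_simp
    ring

/-- the invariant form -/
def pr (x y : Fin 3 → ℂ) : ℂ := 2 * x 1 * y 1 - x 0 * y 2 - x 2 * y 0

theorem pr_br (a x y : Fin 3 → ℂ) : pr (br a x) y + pr x (br a y) = 0 := by
  simp only [pr, br0, br1, br2]
  ring

theorem pr_RR (h : x.Ok) (hb : b ≠ 0) (X Y : Fin 3 → ℂ) : pr (RR b x X) (RR b x Y) = pr X Y := by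
  have hp := h.p0
  have hq := h.q0
  simp only [pr, RR0, RR1, RR2]
  field_simp
  ring

/-- the inverse of the representation -/
theorem RR_inv (h : x.Ok) (hb : b ≠ 0) (Z : Fin 3 → ℂ) :
    RR b x ![-pr Z (RR b x (eb 2)), pr Z (RR b x (eb 1)) / 2, -pr Z (RR b x (eb 0))] = Z := by
  have hp := h.p0
  have hq := h.q0
  apply ext3
  · simp only [RR0, pr, RR1, RR2, eb00, eb01, eb02, eb10, eb11, eb12, eb20, eb21, eb22,
      Matrix.cons_val_zero, Matrix.cons_val_one, Matrix.cons_val]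
    field_simp
    ring
  · simp only [RR0, pr, RR1, RR2, eb00, eb01, eb02, eb10, eb11, eb12, eb20, eb21, eb22,
      Matrix.cons_val_zero, Matrix.cons_val_one, Matrix.cons_val]
    field_simp
    ring
  · simp only [RR0, pr, RR1, RR2, eb00, eb01, eb02, eb10, eb11, eb12, eb20, eb21, eb22,
      Matrix.cons_val_zero, Matrix.cons_val_one, Matrix.cons_val]
    field_simp
    ring

theorem d_pr (δ : Derivation ℚ ℂ ℂ) (x y : Fin 3 → ℂ) :
    δ (pr x y) = pr (fun i => δ (x i)) y + pr x (fun i => δ (y i)) := by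
  simp only [pr, map_sub, dmul, dnat]
  ring

end Pool.Agent.Y776.AxJ
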