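import Mathlib
import Pool.Agent.H73.G.R8.Y776.AxJ.Key

/-!
# Two period matrices: the Maurer–Cartan forms are independent
-/

set_option autoImplicit false

open Finset Module

noncomputable section

namespace Pool.Agent.Y776.AxJ

open Pool.Agent.Y685 Pool.Agent.TH813.Ell
open Pool.Agent.TH813.Rel (DF MK exists_derF bracket_mem)

variable {n : ℕ} {X : Fin n → Qd} {b : ℂ} {D : Derivation ℚ ℂ ℂ}

theorem D_mem (D : Derivation ℚ ℂ ℂ) : D ∈ DF (Cst D) := fun _ h => h

/-- the values of the forms, as a subspace -/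
def SS (b : ℂ) (X : Fin n → Qd) (D : Derivation ℚ ℂ ℂ) : Submodule ℂ (Fin n × Fin 3 → ℂ) where
  carrier := {s | ∃ δ ∈ DF (Cst D), ∀ i k, Th b (X i) δ k = s (i, k)}
  add_mem' := by
    rintro s t ⟨δ, hδ, hs⟩ ⟨δ', hδ', ht⟩
    refine ⟨δ + δ', (DF _).add_mem hδ hδ', fun i k => ?_⟩
    rw [Th_add, Pi.add_apply, Pi.add_apply, hs, ht]
  zero_mem' := ⟨0, (DF _).zero_mem, fun i k => by
    have h := Th_smul (b := b) (x := X i) (δ := (0 : Derivation ℚ ℂ ℂ)) 0
    rw [zero_smul, zero_smul] at h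
    rw [h]
    rfl⟩
  smul_mem' := by
    rintro c s ⟨δ, hδ, hs⟩
    refine ⟨c • δ, (DF _).smul_mem c hδ, fun i k => ?_⟩
    rw [Th_smul, Pi.smul_apply, Pi.smul_apply, hs]

/-- the bracket -/
def bq (s t : Fin n × Fin 3 → ℂ) : Fin n × Fin 3 → ℂ := fun p =>
  br (fun k => s (p.1, k)) (fun k => t (p.1, k)) p.2

theorem bq_add_left (s s' t : Fin n × Fin 3 → ℂ) : bq (s + s') t = bq s t + bq s' t := by
  funext p
  exact congrFun (br_add_left (fun k => s (p.1, k)) (fun k => s' (p.1, k))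
    (fun k => t (p.1, k))) p.2

theorem bq_add_right (s t t' : Fin n × Fin 3 → ℂ) : bq s (t + t') = bq s t + bq s t' := by
  funext p
  exact congrFun (br_add_right (fun k => s (p.1, k)) (fun k => t (p.1, k))
    (fun k => t' (p.1, k))) p.2

theorem bq_smul_left (c : ℂ) (s t : Fin n × Fin 3 → ℂ) : bq (c • s) t = c • bq s t := by
  funext p
  exact congrFun (br_smul_left c (fun k => s (p.1, k)) (fun k => t (p.1, k))) p.2

theorem bq_smul_right (c : ℂ) (s t : Fin n × Fin 3 → ℂ) : bq s (c • t) = c • bq s t := by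
  funext p
  exact congrFun (br_smul_right c (fun k => s (p.1, k)) (fun k => t (p.1, k))) p.2

theorem bq_zero_left (t : Fin n × Fin 3 → ℂ) : bq 0 t = 0 := by
  funext p
  exact congrFun (br_zero_left (fun k => t (p.1, k))) p.2

theorem bq_zero_right (s : Fin n × Fin 3 → ℂ) : bq s 0 = 0 := by
  funext p
  exact congrFun (br_zero_right (fun k => s (p.1, k))) p.2

/-- **the values of the forms are closed under the bracket** -/
theorem SS_closed (hX : ∀ i, (X i).dl ≠ 0) (hb : b ≠ 0) (hDb : D b = 0)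
    (hDX : ∀ i, Th b (X i) D = 0) {s t : Fin n × Fin 3 → ℂ} (hs : s ∈ SS b X D)
    (ht : t ∈ SS b X D) : bq s t ∈ SS b X D := by
  have hst : ∀ s ∈ SS b X D, (fun p => D (s p)) ∈ SS b X D := by
    rintro s ⟨δ, hδ, hs⟩
    refine ⟨⁅D, δ⁆, bracket_mem _ (D_mem D) hδ, fun i k => ?_⟩
    rw [Th_brk (hX i) hb hDb (hδ b hDb), hDX i, br_zero_left]
    simp only [Pi.add_apply, Pi.sub_apply, Pi.zero_apply, map_zero, sub_zero, add_zero]
    rw [hs]
  have hsp := span_const D (SS b X D) hst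
  have c1 : ∀ s ∈ {s | s ∈ SS b X D ∧ ∀ i, D (s i) = 0}, ∀ t ∈ {s | s ∈ SS b X D ∧ ∀ i, D (s i) = 0},
      bq s t ∈ SS b X D := by
    rintro s ⟨⟨δ, hδ, hs⟩, hs0⟩ t ⟨⟨δ', hδ', ht⟩, ht0⟩
    refine ⟨⁅δ, δ'⁆, bracket_mem _ hδ hδ', fun i k => ?_⟩
    rw [Th_brk (hX i) hb (hδ b hDb) (hδ' b hDb)]
    have e1 : ∀ j, δ (Th b (X i) δ' j) = 0 := fun j => by
      rw [ht]
      exact hδ _ (ht0 _)
    have e2 : ∀ j, δ' (Th b (X i) δ j) = 0 := fun j => by
      rw [hs]
      exact hδ' _ (hs0 _)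
    simp only [Pi.add_apply, Pi.sub_apply, e1, e2, sub_zero, zero_add]
    have e3 : Th b (X i) δ = fun k => s (i, k) := funext fun k => hs i k
    have e4 : Th b (X i) δ' = fun k => t (i, k) := funext fun k => ht i k
    rw [e3, e4]
    rfl
  have c2 : ∀ t ∈ {s | s ∈ SS b X D ∧ ∀ i, D (s i) = 0}, bq s t ∈ SS b X D := by
    intro t ht
    refine Submodule.span_induction (p := fun s _ => bq s t ∈ SS b X D) (fun s hs => c1 s hs t ht)
      ?_ ?_ ?_ (hsp hs)
    · rw [bq_zero_left]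
      exact Submodule.zero_mem _
    · intro s s' _ _ h1 h2
      rw [bq_add_left]
      exact Submodule.add_mem _ h1 h2
    · intro c s _ h1
      rw [bq_smul_left]
      exact Submodule.smul_mem _ c h1
  refine Submodule.span_induction (p := fun t _ => bq s t ∈ SS b X D) (fun t ht => c2 t ht)
    ?_ ?_ ?_ (hsp ht)
  · rw [bq_zero_right]
    exact Submodule.zero_mem _
  · intro t t' _ _ h1 h2
    rw [bq_add_right]
    exact Submodule.add_mem _ h1 h2
  · intro c t _ h1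
    rw [bq_smul_right]
    exact Submodule.smul_mem _ c h1

variable {x y : Qd}

/-- the values of two forms -/
def P2 (b : ℂ) (x y : Qd) (D : Derivation ℚ ℂ ℂ) (a c : Fin 3 → ℂ) : Prop :=
  ∃ δ ∈ DF (Cst D), Th b x δ = a ∧ Th b y δ = c

theorem P2_add {a c a' c' : Fin 3 → ℂ} (h : P2 b x y D a c) (h' : P2 b x y D a' c') :
    P2 b x y D (a + a') (c + c') := by
  obtain ⟨δ, hδ, h1, h2⟩ := h
  obtain ⟨δ', hδ', h1', h2'⟩ := h'
  exact ⟨δ + δ', (DF _).add_mem hδ hδ', by rw [Th_add, h1, h1'], by rw [Th_add, h2, h2']⟩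

theorem P2_smul {a c : Fin 3 → ℂ} (r : ℂ) (h : P2 b x y D a c) :
    P2 b x y D (r • a) (r • c) := by
  obtain ⟨δ, hδ, h1, h2⟩ := h
  exact ⟨r • δ, (DF _).smul_mem r hδ, by rw [Th_smul, h1], by rw [Th_smul, h2]⟩

theorem P2_zero : P2 b x y D 0 0 := by
  refine ⟨0, (DF _).zero_mem, ?_, ?_⟩
  · have h := Th_smul (b := b) (x := x) (δ := (0 : Derivation ℚ ℂ ℂ)) 0
    rwa [zero_smul, zero_smul] at h
  · have h := Th_smul (b := b) (x := y) (δ := (0 : Derivation ℚ ℂ ℂ)) 0
    rwa [zero_smul, zero_smul] at h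

theorem P2_br (hx : x.dl ≠ 0) (hy : y.dl ≠ 0) (hb : b ≠ 0) (hDb : D b = 0) (hDx : Th b x D = 0)
    (hDy : Th b y D = 0) {a c a' c' : Fin 3 → ℂ} (h : P2 b x y D a c) (h' : P2 b x y D a' c') :
    P2 b x y D (br a a') (br c c') := by
  obtain ⟨δ, hδ, h1, h2⟩ := h
  obtain ⟨δ', hδ', h1', h2'⟩ := h'
  have hX : ∀ i, ((![x, y] : Fin 2 → Qd) i).dl ≠ 0 := by
    intro i
    fin_cases i
    · exact hx
    · exact hy
  have hDX : ∀ i, Th b ((![x, y] : Fin 2 → Qd) i) D = 0 := by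
    intro i
    fin_cases i
    · exact hDx
    · exact hDy
  have hs : (fun p : Fin 2 × Fin 3 => ![a, c] p.1 p.2) ∈ SS b ![x, y] D := by
    refine ⟨δ, hδ, fun i k => ?_⟩
    fin_cases i
    · exact congrFun h1 k
    · exact congrFun h2 k
  have ht : (fun p : Fin 2 × Fin 3 => ![a', c'] p.1 p.2) ∈ SS b ![x, y] D := by
    refine ⟨δ', hδ', fun i k => ?_⟩
    fin_cases i
    · exact congrFun h1' k
    · exact congrFun h2' k
  obtain ⟨E, hE, hv⟩ := SS_closed hX hb hDb hDX hs ht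
  exact ⟨E, hE, funext fun k => hv 0 k, funext fun k => hv 1 k⟩

/-- **the pair theorem** -/
theorem pair (hx : x.Ok) (hy : y.Ok) (hb : b ≠ 0) (hF : Free b x) (hDb : D b = 0)
    (hDx : Th b x D = 0) (hDy : Th b y D = 0) (hDg : D (gg x) ≠ 0)
    (hFy : ∀ a, ∃ δ ∈ DF (Cst D), Th b y δ = a) (hw : gg y ∉ clo (Cst D) {gg x})
    (hw' : gg x ∉ clo (Cst D) {gg y}) (a : Fin 3 → ℂ) : P2 b x y D a 0 := by
  classical
  have hFx : ∀ a, ∃ c, P2 b x y D a c := by
    intro a
    obtain ⟨δ, hδ, h1, -⟩ := hF.th hx hb hDb hDx hDg a 0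
    exact ⟨_, δ, hδ, h1, rfl⟩
  have hFy' : ∀ c, ∃ a, P2 b x y D a c := by
    intro c
    obtain ⟨δ, hδ, h1⟩ := hFy c
    exact ⟨_, δ, hδ, rfl, h1⟩
  have hbr : ∀ {a c a' c' : Fin 3 → ℂ}, P2 b x y D a c → P2 b x y D a' c' →
      P2 b x y D (br a a') (br c c') := P2_br hx.dl hy.dl hb hDb hDx hDy
  -- the first ideal
  let W1 : Submodule ℂ (Fin 3 → ℂ) :=
    { carrier := {a | P2 b x y D a 0}
      add_mem' := fun {a a'} h h' => by
        have := P2_add h h'
        rwa [add_zero] at this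
      zero_mem' := P2_zero
      smul_mem' := fun r a h => by
        have := P2_smul r h
        rwa [smul_zero] at this }
  by_cases hW1 : ∃ a ∈ W1, a ≠ 0
  · obtain ⟨a₀, ha₀, hne⟩ := hW1
    refine simple (S := W1) (fun a ha z => ?_) ha₀ hne a
    obtain ⟨c, hc⟩ := hFx z
    have h := hbr (show P2 b x y D a 0 from ha) hc
    rw [br_zero_left] at h
    exact h
  let W2 : Submodule ℂ (Fin 3 → ℂ) :=
    { carrier := {c | P2 b x y D 0 c}
      add_mem' := fun {a a'} h h' => by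
        have := P2_add h h'
        rwa [add_zero] at this
      zero_mem' := P2_zero
      smul_mem' := fun r a h => by
        have := P2_smul r h
        rwa [smul_zero] at this }
  by_cases hW2 : ∃ c ∈ W2, c ≠ 0
  · obtain ⟨c₀, hc₀, hne⟩ := hW2
    have hall : ∀ c, P2 b x y D 0 c := by
      refine simple (S := W2) (fun c hc z => ?_) hc₀ hne
      obtain ⟨a, ha⟩ := hFy' z
      have h := hbr (show P2 b x y D 0 c from hc) ha
      rw [br_zero_left] at h
      exact h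
    obtain ⟨c, hc⟩ := hFx a
    have h := P2_add hc (hall (-c))
    rwa [add_zero, add_neg_cancel] at h
  exfalso
  push Not at hW1 hW2
  -- the isomorphism
  have hker : ∀ δ ∈ DF (Cst D), Th b x δ = 0 → Th b y δ = 0 := fun δ hδ h =>
    hW2 _ ⟨δ, hδ, h, rfl⟩
  have hker' : ∀ δ ∈ DF (Cst D), Th b y δ = 0 → Th b x δ = 0 := fun δ hδ h =>
    hW1 _ ⟨δ, hδ, rfl, h⟩
  choose d hd hdx using fun k => (hF.th hx hb hDb hDx hDg (eb k) 0)
  set f : Fin 3 → Fin 3 → ℂ := fun k => Th b y (d k) with hf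
  have hrel : ∀ δ ∈ DF (Cst D), Th b y δ =
      Th b x δ 0 • f 0 + Th b x δ 1 • f 1 + Th b x δ 2 • f 2 := by
    intro δ hδ
    have h1 := hker (δ + ((-(Th b x δ 0)) • d 0 + ((-(Th b x δ 1)) • d 1 + (-(Th b x δ 2)) • d 2)))
      ((DF _).add_mem hδ ((DF _).add_mem ((DF _).smul_mem _ (hd 0)) ((DF _).add_mem
        ((DF _).smul_mem _ (hd 1)) ((DF _).smul_mem _ (hd 2))))) (by
        simp only [Th_add, Th_smul, (hdx _).1]
        have hs := eb_sum (Th b x δ)
        rw [add_eq_zero_iff_eq_neg]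
        refine hs.trans ?_
        module)
    simp only [Th_add, Th_smul] at h1
    rw [add_eq_zero_iff_eq_neg] at h1
    rw [h1, hf]
    module
  have hDf : ∀ k i, D (f k i) = 0 := by
    intro k i
    have hbk : D b = 0 := hDb
    have h1 := hker ⁅D, d k⁆ (bracket_mem _ (D_mem D) (hd k)) (by
      rw [Th_brk hx.dl hb hDb (hd k b hDb), hDx, br_zero_left, (hdx k).1]
      funext i
      simp only [Pi.add_apply, Pi.sub_apply, Pi.zero_apply, map_zero, sub_zero, add_zero]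
      rw [eb, Pi.single_apply]
      split_ifs
      · exact done' D
      · exact map_zero D)
    rw [Th_brk hy.dl hb hDb (hd k b hDb), hDy, br_zero_left] at h1
    have h2 := congrFun h1 i
    simp only [Pi.add_apply, Pi.sub_apply, Pi.zero_apply, map_zero, sub_zero, add_zero] at h2
    exact h2
  have hbf : ∀ k l, br (f k) (f l) = br (eb k) (eb l) 0 • f 0 + br (eb k) (eb l) 1 • f 1 +
      br (eb k) (eb l) 2 • f 2 := by
    intro k l
    obtain ⟨E, hE, e1, e2⟩ := hbr (show P2 b x y D (eb k) (f k) from ⟨d k, hd k, (hdx k).1, rfl⟩)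
      (show P2 b x y D (eb l) (f l) from ⟨d l, hd l, (hdx l).1, rfl⟩)
    rw [← e2, hrel E hE, e1]
  have b01 : br (f 0) (f 1) = (2 : ℂ) • f 0 := by
    rw [hbf, br0, br1, br2, eb00, eb01, eb02, eb10, eb11, eb12]
    module
  have b02 : br (f 0) (f 2) = f 1 := by
    rw [hbf, br0, br1, br2, eb00, eb01, eb02, eb20, eb21, eb22]
    module
  have b12 : br (f 1) (f 2) = (2 : ℂ) • f 2 := by
    rw [hbf, br0, br1, br2, eb10, eb11, eb12, eb20, eb21, eb22]
    module
  have bself : ∀ z : Fin 3 → ℂ, br z z = 0 := by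
    intro z
    apply ext3 <;> simp only [br0, br1, br2, Pi.zero_apply] <;> ring
  have bneg : ∀ z z' : Fin 3 → ℂ, br z z' = -br z' z := by
    intro z z'
    apply ext3 <;> simp only [br0, br1, br2, Pi.neg_apply] <;> ring
  have b10 : br (f 1) (f 0) = (-2 : ℂ) • f 0 := by
    rw [bneg, b01]
    module
  have b20 : br (f 2) (f 0) = -f 1 := by rw [bneg, b02]
  have b21 : br (f 2) (f 1) = (-2 : ℂ) • f 2 := by
    rw [bneg, b12]
    module
  -- the tensor
  set N : Fin 3 → Fin 3 → ℂ := fun a c => 1 / 2 * RR b y (f 1) a * RR b x (eb 1) c -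
    RR b y (f 0) a * RR b x (eb 2) c - RR b y (f 2) a * RR b x (eb 0) c with hN
  have hNv : ∀ a, N a = (1 / 2 * RR b y (f 1) a) • RR b x (eb 1) + ((-(RR b y (f 0) a)) • RR b x (eb 2)
      + (-(RR b y (f 2) a)) • RR b x (eb 0)) := by
    intro a
    funext c
    simp only [hN, Pi.add_apply, Pi.smul_apply, smul_eq_mul]
    ring
  have hδN : ∀ δ ∈ DF (Cst D), δ (gg y) = 0 → ∀ a c, δ (N a c) = br (Av x δ) (N a) c := by
    intro δ hδ hgy a c
    have hδb := hδ b hDb
    have hAy : Av y δ = 0 := by rw [Av_eq hy, hgy, zero_smul]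
    have hθ := hrel δ hδ
    have hY : ∀ k, δ (RR b y (f k) a) = RR b y (br (Th b y δ) (f k)) a := by
      intro k
      have h1 := congrFun (d_RR (X := f k) hy hb hδb (fun i => hδ _ (hDf k i))) a
      rw [hAy, br_zero_left, add_zero] at h1
      exact h1
    have hXk : ∀ k, δ (RR b x (eb k) c) = RR b x (br (Th b x δ) (eb k)) c +
        br (Av x δ) (RR b x (eb k)) c := by
      intro k
      exact congrFun (d_RR (X := eb k) hx hb hδb (fun i => by
        rw [eb, Pi.single_apply]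
        split_ifs
        · exact done' δ
        · exact map_zero δ)) c
    set θ := Th b x δ with hθd
    have hsm : ∀ (z : Qd) (r : ℂ) (Z : Fin 3 → ℂ) (i : Fin 3), RR b z (r • Z) i = r * RR b z Z i := by
      intro z r Z i
      rw [RR_smul]
      rfl
    have had : ∀ (z : Qd) (Z Z' : Fin 3 → ℂ) (i : Fin 3), RR b z (Z + Z') i =
        RR b z Z i + RR b z Z' i := by
      intro z Z Z' i
      rw [RR_add]
      rfl
    have y0 : δ (RR b y (f 0) a) = -2 * θ 1 * RR b y (f 0) a - θ 2 * RR b y (f 1) a := by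
      rw [hY, hθ]
      simp only [br_add_left, br_smul_left, bself, b10, b20]
      have e1 : θ 0 • (0 : Fin 3 → ℂ) + θ 1 • (-2 : ℂ) • f 0 + θ 2 • -f 1 =
          (-2 * θ 1) • f 0 + (-θ 2) • f 1 := by module
      rw [e1, had, hsm, hsm]
      ring
    have y1 : δ (RR b y (f 1) a) = 2 * θ 0 * RR b y (f 0) a - 2 * θ 2 * RR b y (f 2) a := by
      rw [hY, hθ]
      simp only [br_add_left, br_smul_left, bself, b01, b21]
      have e1 : θ 0 • (2 : ℂ) • f 0 + θ 1 • (0 : Fin 3 → ℂ) + θ 2 • (-2 : ℂ) • f 2 =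
          (2 * θ 0) • f 0 + (-2 * θ 2) • f 2 := by module
      rw [e1, had, hsm, hsm]
      ring
    have y2 : δ (RR b y (f 2) a) = θ 0 * RR b y (f 1) a + 2 * θ 1 * RR b y (f 2) a := by
      rw [hY, hθ]
      simp only [br_add_left, br_smul_left, bself, b02, b12]
      have e1 : θ 0 • f 1 + θ 1 • (2 : ℂ) • f 2 + θ 2 • (0 : Fin 3 → ℂ) =
          θ 0 • f 1 + (2 * θ 1) • f 2 := by module
      rw [e1, had, hsm, hsm]
    have g0 : br θ (eb 0) = (-2 * θ 1) • eb 0 + (-θ 2) • eb 1 := by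
      apply ext3 <;> simp only [br0, br1, br2, Pi.add_apply, Pi.smul_apply, smul_eq_mul, eb00, eb01,
        eb02, eb10, eb11, eb12] <;> ring
    have g1 : br θ (eb 1) = (2 * θ 0) • eb 0 + (-2 * θ 2) • eb 2 := by
      apply ext3 <;> simp only [br0, br1, br2, Pi.add_apply, Pi.smul_apply, smul_eq_mul, eb00, eb01,
        eb02, eb10, eb11, eb12, eb20, eb21, eb22] <;> ring
    have g2 : br θ (eb 2) = θ 0 • eb 1 + (2 * θ 1) • eb 2 := by
      apply ext3 <;> simp only [br0, br1, br2, Pi.add_apply, Pi.smul_apply, smul_eq_mul, eb20, eb21,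
        eb22, eb10, eb11, eb12] <;> ring
    have x0 : δ (RR b x (eb 0) c) = -2 * θ 1 * RR b x (eb 0) c - θ 2 * RR b x (eb 1) c +
        br (Av x δ) (RR b x (eb 0)) c := by
      rw [hXk, g0, had, hsm, hsm]
      ring
    have x1 : δ (RR b x (eb 1) c) = 2 * θ 0 * RR b x (eb 0) c - 2 * θ 2 * RR b x (eb 2) c +
        br (Av x δ) (RR b x (eb 1)) c := by
      rw [hXk, g1, had, hsm, hsm]
      ring
    have x2 : δ (RR b x (eb 2) c) = θ 0 * RR b x (eb 1) c + 2 * θ 1 * RR b x (eb 2) c +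
        br (Av x δ) (RR b x (eb 2)) c := by
      rw [hXk, g2, had, hsm, hsm]
    have hR : br (Av x δ) (N a) c = 1 / 2 * RR b y (f 1) a * br (Av x δ) (RR b x (eb 1)) c -
        RR b y (f 0) a * br (Av x δ) (RR b x (eb 2)) c -
        RR b y (f 2) a * br (Av x δ) (RR b x (eb 0)) c := by
      rw [hNv, br_add_right, br_add_right, br_smul_right, br_smul_right, br_smul_right]
      simp only [Pi.add_apply, Pi.smul_apply, smul_eq_mul]
      ring
    have e12 : (1 / 2 : ℂ) = 1 / 2 := rfl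
    have hhalf : ∀ z : ℂ, δ (1 / 2 * z) = 1 / 2 * δ z := by
      intro z
      rw [show (1 / 2 : ℂ) * z = z / 2 by ring, dinvn]
      ring
    rw [hR]
    change δ (1 / 2 * RR b y (f 1) a * RR b x (eb 1) c - RR b y (f 0) a * RR b x (eb 2) c -
      RR b y (f 2) a * RR b x (eb 0) c) = _
    have e13 : δ (1 / 2 * RR b y (f 1) a * RR b x (eb 1) c) =
        1 / 2 * (δ (RR b y (f 1) a) * RR b x (eb 1) c + RR b y (f 1) a * δ (RR b x (eb 1) c)) := by
      rw [mul_assoc, hhalf, dmul]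
    have e14 := dmul δ (RR b y (f 0) a) (RR b x (eb 2) c)
    have e15 := dmul δ (RR b y (f 2) a) (RR b x (eb 0) c)
    rw [map_sub, map_sub, e13, e14, e15, y0, y1, y2, x0, x1, x2]
    ring
  -- a derivation which moves only the first parameter
  obtain ⟨δ', hδ', h1, h2⟩ : ∃ δ' ∈ DF (Cst D), δ' (gg x) = 1 ∧ δ' (gg y) = 0 := by
    have h3 : ∃ δ ∈ DF (Cst D), δ (gg y) = 0 ∧ δ (gg x) ≠ 0 := by
      by_contra hcon
      push Not at hcon
      exact hw' fun δ hδ hs => hcon δ hδ (hs _ rfl)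
    obtain ⟨δ, hδ, h4, h5⟩ := h3
    refine ⟨(δ (gg x))⁻¹ • δ, (DF _).smul_mem _ hδ, ?_, ?_⟩
    · rw [Derivation.smul_apply, smul_eq_mul, inv_mul_cancel₀ h5]
    · rw [Derivation.smul_apply, smul_eq_mul, h4, mul_zero]
  have hN0 : ∀ a, N a = 0 := by
    intro a
    refine no_tensor hx hb hF hDb hDx hDg hδ' h1 h2 hw (N a) (fun c => ?_) (fun c => ?_)
    · intro δ hδ hs
      rw [hδN δ hδ (hs _ (Or.inr rfl)), Av_eq hx, hs _ (Or.inl rfl), zero_smul, br_zero_left]
      rfl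
    · rw [hδN δ' hδ' h2, Av_eq hx, h1, one_smul]
  have hf1 : f 1 = 0 := by
    apply RR_inj hy hb
    funext a
    have h3 : pr (N a) (RR b x (eb 1)) = RR b y (f 1) a := by
      have h4 : pr (N a) (RR b x (eb 1)) = 1 / 2 * RR b y (f 1) a * pr (RR b x (eb 1)) (RR b x (eb 1)) -
          RR b y (f 0) a * pr (RR b x (eb 2)) (RR b x (eb 1)) -
          RR b y (f 2) a * pr (RR b x (eb 0)) (RR b x (eb 1)) := by
        simp only [hN, pr]
        ring
      rw [h4, pr_RR hx hb, pr_RR hx hb, pr_RR hx hb]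
      simp only [pr, eb00, eb01, eb02, eb10, eb11, eb12, eb20, eb21, eb22]
      ring
    rw [← h3, hN0 a]
    simp only [pr, Pi.zero_apply]
    ring
  have h5 := hker' (d 1) (hd 1) hf1
  rw [(hdx 1).1] at h5
  have h6 := congrFun h5 1
  rw [eb11] at h6
  exact one_ne_zero h6

end Pool.Agent.Y776.AxJ
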