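import Mathlib
import Pool.Agent.H73.G.R8.Y776.AxJ.Pair
import Pool.Agent.H73.G.R8.Y776.TorA

/-!
# The rank theorem for several period matrices and exponentials
-/

set_option autoImplicit false

open Finset Module

noncomputable section

namespace Pool.Agent.Y776.AxJ

open Pool.Agent.Y685 Pool.Agent.TH813.Ell
open Pool.Agent.TH813.Rel (DF MK exists_derF bracket_mem)

variable {n s : ℕ} {X : Fin n → Qd} {t : Fin s → ℂ} {b : ℂ} {D δ δ' : Derivation ℚ ℂ ℂ}

/-- the differential of the closed form -/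
theorem Tf_brk (δ δ' : Derivation ℚ ℂ ℂ) (t : ℂ) : Tf ⁅δ, δ'⁆ t = δ (Tf δ' t) - δ' (Tf δ t) := by
  have h1 := Complex.exp_ne_zero t
  have e1 : ∀ d : Derivation ℚ ℂ ℂ, d (Complex.exp t) = lg d t * Complex.exp t := fun d => by
    rw [lg, div_mul_cancel₀ _ h1]
  have e2 := e1 ⁅δ, δ'⁆
  rw [brk, e1 δ, e1 δ', dmul, dmul, e1 δ, e1 δ'] at e2
  have e3 : lg ⁅δ, δ'⁆ t = δ (lg δ' t) - δ' (lg δ t) := by
    apply mul_right_cancel₀ h1
    linear_combination -e2
  simp only [Tf, map_sub, brk, e3]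
  ring

/-- the names of the forms -/
abbrev Nf (n s : ℕ) : Type := (Fin n × Fin 3) ⊕ Fin s

/-- the forms -/
def Fo (b : ℂ) (X : Fin n → Qd) (t : Fin s → ℂ) (δ : Derivation ℚ ℂ ℂ) : Nf n s → ℂ :=
  Sum.elim (fun p => Th b (X p.1) δ p.2) (fun k => Tf δ (t k))

theorem Fo_add : Fo b X t (δ + δ') = Fo b X t δ + Fo b X t δ' := by
  funext p
  rcases p with ⟨i, k⟩ | k
  · exact congrFun Th_add k
  · exact Tf_add_der _ _ _

theorem Fo_smul (c : ℂ) : Fo b X t (c • δ) = c • Fo b X t δ := by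
  funext p
  rcases p with ⟨i, k⟩ | k
  · exact congrFun (Th_smul c) k
  · exact Tf_smul_der _ _ _

/-- the values of the forms, as a subspace -/
def ST (b : ℂ) (X : Fin n → Qd) (t : Fin s → ℂ) (D : Derivation ℚ ℂ ℂ) :
    Submodule ℂ (Nf n s → ℂ) where
  carrier := {v | ∃ δ ∈ DF (Cst D), Fo b X t δ = v}
  add_mem' := by
    rintro v w ⟨δ, hδ, rfl⟩ ⟨δ', hδ', rfl⟩
    exact ⟨δ + δ', (DF _).add_mem hδ hδ', Fo_add⟩
  zero_mem' := ⟨0, (DF _).zero_mem, by
    have h := Fo_smul (b := b) (X := X) (t := t) (δ := (0 : Derivation ℚ ℂ ℂ)) 0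
    rw [zero_smul, zero_smul] at h
    exact h⟩
  smul_mem' := by
    rintro c v ⟨δ, hδ, rfl⟩
    exact ⟨c • δ, (DF _).smul_mem c hδ, Fo_smul c⟩

/-- the bracket -/
def bt (v w : Nf n s → ℂ) : Nf n s → ℂ :=
  Sum.elim (bq (fun p => v (Sum.inl p)) (fun p => w (Sum.inl p))) 0

theorem bt_add_left (v v' w : Nf n s → ℂ) : bt (v + v') w = bt v w + bt v' w := by
  funext p
  rcases p with p | k
  · exact congrFun (bq_add_left (fun p => v (Sum.inl p)) (fun p => v' (Sum.inl p))
      (fun p => w (Sum.inl p))) p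
  · exact (add_zero _).symm

theorem bt_add_right (v w w' : Nf n s → ℂ) : bt v (w + w') = bt v w + bt v w' := by
  funext p
  rcases p with p | k
  · exact congrFun (bq_add_right (fun p => v (Sum.inl p)) (fun p => w (Sum.inl p))
      (fun p => w' (Sum.inl p))) p
  · exact (add_zero _).symm

theorem bt_smul_left (c : ℂ) (v w : Nf n s → ℂ) : bt (c • v) w = c • bt v w := by
  funext p
  rcases p with p | k
  · exact congrFun (bq_smul_left c (fun p => v (Sum.inl p)) (fun p => w (Sum.inl p))) p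
  · exact (smul_zero c).symm

theorem bt_smul_right (c : ℂ) (v w : Nf n s → ℂ) : bt v (c • w) = c • bt v w := by
  funext p
  rcases p with p | k
  · exact congrFun (bq_smul_right c (fun p => v (Sum.inl p)) (fun p => w (Sum.inl p))) p
  · exact (smul_zero c).symm

theorem bt_zero_left (w : Nf n s → ℂ) : bt 0 w = 0 := by
  have h := bt_smul_left 0 0 w
  rwa [zero_smul, zero_smul] at h

theorem bt_zero_right (v : Nf n s → ℂ) : bt v 0 = 0 := by
  have h := bt_smul_right 0 v 0
  rwa [zero_smul, zero_smul] at h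

theorem ST_D (hX : ∀ i, (X i).dl ≠ 0) (hb : b ≠ 0) (hDb : D b = 0)
    (hDX : ∀ i, Th b (X i) D = 0) (ht : ∀ k, Tf D (t k) = 0) {v : Nf n s → ℂ}
    (hv : v ∈ ST b X t D) : (fun p => D (v p)) ∈ ST b X t D := by
  obtain ⟨δ, hδ, rfl⟩ := hv
  refine ⟨⁅D, δ⁆, bracket_mem _ (D_mem D) hδ, ?_⟩
  funext p
  rcases p with ⟨i, k⟩ | k
  · have h := congrFun (Th_brk (x := X i) (hX i) hb hDb (hδ b hDb)) k
    rw [hDX i, br_zero_left] at h
    simp only [Pi.add_apply, Pi.sub_apply, Pi.zero_apply, map_zero, sub_zero, add_zero] at h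
    exact h
  · change Tf ⁅D, δ⁆ (t k) = D (Tf δ (t k))
    rw [Tf_brk, ht, map_zero, sub_zero]

/-- **the values of the forms are closed under the bracket** -/
theorem ST_closed (hX : ∀ i, (X i).dl ≠ 0) (hb : b ≠ 0) (hDb : D b = 0)
    (hDX : ∀ i, Th b (X i) D = 0) (ht : ∀ k, Tf D (t k) = 0) {v w : Nf n s → ℂ}
    (hv : v ∈ ST b X t D) (hw : w ∈ ST b X t D) : bt v w ∈ ST b X t D := by
  have hsp := span_const D (ST b X t D) fun v hv => ST_D hX hb hDb hDX ht hv
  have c1 : ∀ v ∈ {v | v ∈ ST b X t D ∧ ∀ i, D (v i) = 0},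
      ∀ w ∈ {v | v ∈ ST b X t D ∧ ∀ i, D (v i) = 0}, bt v w ∈ ST b X t D := by
    rintro v ⟨⟨δ, hδ, rfl⟩, hs0⟩ w ⟨⟨δ', hδ', rfl⟩, ht0⟩
    refine ⟨⁅δ, δ'⁆, bracket_mem _ hδ hδ', ?_⟩
    have a1 : ∀ p, δ (Fo b X t δ' p) = 0 := fun p => hδ _ (ht0 p)
    have a2 : ∀ p, δ' (Fo b X t δ p) = 0 := fun p => hδ' _ (hs0 p)
    funext p
    rcases p with ⟨i, k⟩ | k
    · have h := congrFun (Th_brk (x := X i) (hX i) hb (hδ b hDb) (hδ' b hDb)) k
      have e1 : ∀ j, δ (Th b (X i) δ' j) = 0 := fun j => a1 (Sum.inl (i, j))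
      have e2 : ∀ j, δ' (Th b (X i) δ j) = 0 := fun j => a2 (Sum.inl (i, j))
      simp only [Pi.add_apply, Pi.sub_apply, e1, e2, sub_zero, zero_add] at h
      exact h
    · change Tf ⁅δ, δ'⁆ (t k) = 0
      have e1 : δ (Tf δ' (t k)) = 0 := a1 (Sum.inr k)
      have e2 : δ' (Tf δ (t k)) = 0 := a2 (Sum.inr k)
      rw [Tf_brk, e1, e2, sub_zero]
  have c2 : ∀ w ∈ {v | v ∈ ST b X t D ∧ ∀ i, D (v i) = 0}, bt v w ∈ ST b X t D := by
    intro w hw
    refine Submodule.span_induction (p := fun v _ => bt v w ∈ ST b X t D) (fun v hv => c1 v hv w hw)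
      ?_ ?_ ?_ (hsp hv)
    · rw [bt_zero_left]
      exact Submodule.zero_mem _
    · intro v v' _ _ h1 h2
      rw [bt_add_left]
      exact Submodule.add_mem _ h1 h2
    · intro c v _ h1
      rw [bt_smul_left]
      exact Submodule.smul_mem _ c h1
  refine Submodule.span_induction (p := fun w _ => bt v w ∈ ST b X t D) (fun w hw => c2 w hw)
    ?_ ?_ ?_ (hsp hw)
  · rw [bt_zero_right]
    exact Submodule.zero_mem _
  · intro w w' _ _ h1 h2
    rw [bt_add_right]
    exact Submodule.add_mem _ h1 h2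
  · intro c w _ h1
    rw [bt_smul_right]
    exact Submodule.smul_mem _ c h1

/-- the hypotheses on the period matrices -/
structure Hyp (b : ℂ) (X : Fin n → Qd) (D : Derivation ℚ ℂ ℂ) : Prop where
  ok : ∀ i, (X i).Ok
  b0 : b ≠ 0
  Db : D b = 0
  th : ∀ i, Th b (X i) D = 0
  ng : ∀ i, D (gg (X i)) ≠ 0
  free : ∀ i, Free b (X i)
  ind : ∀ i k, i ≠ k → gg (X i) ∉ clo (Cst D) {gg (X k)}

/-- the forms of the period matrices are independent -/
theorem Hyp.surj1 (h : Hyp b X D) (σ : Fin n → Fin 3 → ℂ) :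
    ∃ δ ∈ DF (Cst D), ∀ i, Th b (X i) δ = σ i := by
  classical
  let S : Submodule ℂ (Fin n → Fin 3 → ℂ) :=
    { carrier := {σ | ∃ δ ∈ DF (Cst D), ∀ i, Th b (X i) δ = σ i}
      add_mem' := by
        rintro v w ⟨δ, hδ, hv⟩ ⟨δ', hδ', hw⟩
        exact ⟨δ + δ', (DF _).add_mem hδ hδ', fun i => by rw [Th_add, hv, hw, Pi.add_apply]⟩
      zero_mem' := ⟨0, (DF _).zero_mem, fun i => by
        have h := Th_smul (b := b) (x := X i) (δ := (0 : Derivation ℚ ℂ ℂ)) 0
        rw [zero_smul, zero_smul] at h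
        rw [h, Pi.zero_apply]⟩
      smul_mem' := by
        rintro c v ⟨δ, hδ, hv⟩
        exact ⟨c • δ, (DF _).smul_mem c hδ, fun i => by rw [Th_smul, hv, Pi.smul_apply]⟩ }
  refine generate S ?_ ?_ ?_ σ
  · rintro v ⟨δ, hδ, hv⟩ w ⟨δ', hδ', hw⟩
    obtain ⟨E, hE, hEv⟩ := SS_closed (X := X) (fun i => (h.ok i).dl) h.b0 h.Db h.th
      (s := fun p => v p.1 p.2) (t := fun p => w p.1 p.2)
      ⟨δ, hδ, fun i k => congrFun (hv i) k⟩ ⟨δ', hδ', fun i k => congrFun (hw i) k⟩
    exact ⟨E, hE, fun i => funext fun k => hEv i k⟩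
  · intro i a
    obtain ⟨δ, hδ, h1, -⟩ := (h.free i).th (h.ok i) h.b0 h.Db (h.th i) (h.ng i) a 0
    exact ⟨fun j => Th b (X j) δ, ⟨δ, hδ, fun _ => rfl⟩, h1⟩
  · intro i k hik a
    obtain ⟨δ, hδ, h1, h2⟩ := pair (h.ok i) (h.ok k) h.b0 (h.free i) h.Db (h.th i) (h.th k) (h.ng i)
      (fun a => by
        obtain ⟨δ, hδ, h1, -⟩ := (h.free k).th (h.ok k) h.b0 h.Db (h.th k) (h.ng k) a 0
        exact ⟨δ, hδ, h1⟩) (h.ind k i (Ne.symm hik)) (h.ind i k hik) a
    exact ⟨fun j => Th b (X j) δ, ⟨δ, hδ, fun _ => rfl⟩, h1, h2⟩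

/-- **the forms of the period matrices and of the exponentials are independent** -/
theorem Hyp.surj2 (h : Hyp b X D) (ht : ∀ k, Tf D (t k) = 0)
    (hti : ∀ q : Fin s → ℚ, D (∑ k, q k • t k) = 0 → q = 0) (v : Nf n s → ℂ) :
    v ∈ ST b X t D := by
  classical
  -- the first part
  have hl : ∀ σ : Fin n → Fin 3 → ℂ, (Sum.elim (fun p => σ p.1 p.2) 0 : Nf n s → ℂ) ∈ ST b X t D := by
    have key : ∀ i k, (Sum.elim (fun p => Pi.single (M := fun _ => Fin 3 → ℂ) i (eb k) p.1 p.2) 0 :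
        Nf n s → ℂ) ∈ ST b X t D := by
      intro i k
      obtain ⟨u, w, huw⟩ := eb_br k
      obtain ⟨δ, hδ, h1⟩ := h.surj1 (Pi.single i u)
      obtain ⟨δ', hδ', h2⟩ := h.surj1 (Pi.single i w)
      have h3 := ST_closed (t := t) (fun i => (h.ok i).dl) h.b0 h.Db h.th ht
        (show Fo b X t δ ∈ ST b X t D from ⟨δ, hδ, rfl⟩)
        (show Fo b X t δ' ∈ ST b X t D from ⟨δ', hδ', rfl⟩)
      convert h3 using 1
      funext p
      rcases p with ⟨j, m⟩ | m
      · change Pi.single (M := fun _ => Fin 3 → ℂ) i (eb k) j m =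
          br (Th b (X j) δ) (Th b (X j) δ') m
        rw [h1, h2]
        by_cases hji : j = i
        · subst hji
          rw [Pi.single_eq_same, Pi.single_eq_same, Pi.single_eq_same, huw]
        · rw [Pi.single_eq_of_ne hji, Pi.single_eq_of_ne hji, br_zero_left]
      · rfl
    intro σ
    have h4 : (Sum.elim (fun p => σ p.1 p.2) 0 : Nf n s → ℂ) = ∑ i, ∑ k, σ i k •
        (Sum.elim (fun p => Pi.single (M := fun _ => Fin 3 → ℂ) i (eb k) p.1 p.2) 0 :
        Nf n s → ℂ) := by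
      funext p
      rw [Finset.sum_apply]
      simp only [Finset.sum_apply, Pi.smul_apply, smul_eq_mul]
      rcases p with ⟨j, m⟩ | m
      · simp only [Sum.elim_inl]
        rw [Finset.sum_eq_single j]
        · simp only [Pi.single_eq_same]
          rw [Finset.sum_eq_single m]
          · rw [eb, Pi.single_eq_same, mul_one]
          · intro k _ hk
            rw [eb, Pi.single_eq_of_ne (Ne.symm hk), mul_zero]
          · intro hcon; exact absurd (Finset.mem_univ m) hcon
        · intro i _ hi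
          simp only [Pi.single_eq_of_ne (Ne.symm hi), Pi.zero_apply, mul_zero, Finset.sum_const_zero]
        · intro hcon; exact absurd (Finset.mem_univ j) hcon
      · simp only [Sum.elim_inr, Pi.zero_apply, mul_zero, Finset.sum_const_zero]
    rw [h4]
    exact Submodule.sum_mem _ fun i _ => Submodule.sum_mem _ fun k _ =>
      Submodule.smul_mem _ _ (key i k)
  -- the second part
  let W : Submodule ℂ (Fin s → ℂ) :=
    { carrier := {w | (Sum.elim 0 w : Nf n s → ℂ) ∈ ST b X t D}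
      add_mem' := fun {w w'} h1 h2 => by
        have h3 := (ST b X t D).add_mem (show (Sum.elim 0 w : Nf n s → ℂ) ∈ ST b X t D from h1)
          (show (Sum.elim 0 w' : Nf n s → ℂ) ∈ ST b X t D from h2)
        have h4 : (Sum.elim 0 (w + w') : Nf n s → ℂ) =
            (Sum.elim 0 w : Nf n s → ℂ) + (Sum.elim 0 w' : Nf n s → ℂ) := by
          funext p
          rcases p with p | p
          · exact (add_zero _).symm
          · rfl
        change (Sum.elim 0 (w + w') : Nf n s → ℂ) ∈ ST b X t D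
        rw [h4]
        exact h3
      zero_mem' := by
        change (Sum.elim 0 0 : Nf n s → ℂ) ∈ ST b X t D
        have h4 : (Sum.elim 0 0 : Nf n s → ℂ) = 0 := by
          funext p
          rcases p with p | p <;> rfl
        rw [h4]
        exact Submodule.zero_mem _
      smul_mem' := fun c w h1 => by
        have h3 := (ST b X t D).smul_mem c (show (Sum.elim 0 w : Nf n s → ℂ) ∈ ST b X t D from h1)
        have h4 : (Sum.elim 0 (c • w) : Nf n s → ℂ) = c • (Sum.elim 0 w : Nf n s → ℂ) := by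
          funext p
          rcases p with p | p
          · exact (smul_zero c).symm
          · rfl
        change (Sum.elim 0 (c • w) : Nf n s → ℂ) ∈ ST b X t D
        rw [h4]
        exact h3 }
  have hWδ : ∀ δ ∈ DF (Cst D), (fun k => Tf δ (t k)) ∈ W := by
    intro δ hδ
    have h1 := Submodule.sub_mem _ (show Fo b X t δ ∈ ST b X t D from ⟨δ, hδ, rfl⟩)
      (hl fun i => Th b (X i) δ)
    have h2 : (Sum.elim 0 (fun k => Tf δ (t k)) : Nf n s → ℂ) = Fo b X t δ -
        Sum.elim (fun p => Th b (X p.1) δ p.2) 0 := by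
      funext p
      rcases p with p | p
      · exact (sub_self _).symm
      · exact (sub_zero _).symm
    change (Sum.elim 0 (fun k => Tf δ (t k)) : Nf n s → ℂ) ∈ ST b X t D
    rw [h2]
    exact h1
  have hWD : ∀ w ∈ W, (fun k => D (w k)) ∈ W := by
    intro w hw
    have h1 := ST_D (t := t) (fun i => (h.ok i).dl) h.b0 h.Db h.th ht hw
    have h2 : (Sum.elim 0 (fun k => D (w k)) : Nf n s → ℂ) =
        fun p => D ((Sum.elim 0 w : Nf n s → ℂ) p) := by
      funext p
      rcases p with p | p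
      · exact (map_zero D).symm
      · rfl
    change (Sum.elim 0 (fun k => D (w k)) : Nf n s → ℂ) ∈ ST b X t D
    rw [h2]
    exact h1
  have hWtop : W = ⊤ := by
    by_contra hne
    obtain ⟨φ, hφ, hφ2⟩ := Submodule.exists_le_ker_of_lt_top W (lt_top_iff_ne_top.2 hne)
    have hφs : ∀ w, φ w = ∑ k, φ (Pi.single k 1) * w k := by
      intro w
      conv_lhs => rw [← Finset.univ_sum_single w]
      rw [map_sum]
      refine Finset.sum_congr rfl fun k _ => ?_
      have : Pi.single k (w k) = (w k) • (Pi.single k (1 : ℂ) : Fin s → ℂ) := by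
        rw [← Pi.single_smul, smul_eq_mul, mul_one]
      rw [this, map_smul, smul_eq_mul, mul_comm]
    obtain ⟨c, hcW, hc0, hcD⟩ := exists_const_vec D {a : Fin s → ℂ | ∀ w ∈ W, ∑ k, a k * w k = 0}
      (fun a ha i _ w hw => by
        have h1 := ha w hw
        have e : ∑ k, a k / a i * w k = (∑ k, a k * w k) / a i := by
          rw [Finset.sum_div]
          exact Finset.sum_congr rfl fun k _ => by ring
        rw [e, h1, zero_div])
      (fun a ha w hw => by
        have h1 := congrArg D (ha w hw)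
        rw [map_sum, map_zero] at h1
        have h2 : ∑ k, D (a k * w k) = ∑ k, D (a k) * w k + ∑ k, a k * D (w k) := by
          rw [← Finset.sum_add_distrib]
          exact Finset.sum_congr rfl fun k _ => dmul D _ _
        rw [h2, ha _ (hWD w hw), add_zero] at h1
        exact h1)
      (a := fun k => φ (Pi.single k 1)) (fun w hw => by
        rw [← hφs]
        exact hφ2 hw)
      (by
        intro h0
        apply hφ
        ext w
        change φ _ = 0
        rw [hφs]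
        exact Finset.sum_eq_zero fun k _ => by rw [show φ (Pi.single k 1) = 0 from congrFun h0 k, zero_mul])
    have hrel : ∀ δ : Derivation ℚ ℂ ℂ, (∀ w ∈ Cst D, δ w = 0) →
        δ (∑ k, c k * t k) = ∑ k, c k * (δ (Complex.exp (t k)) / Complex.exp (t k)) := by
      intro δ hδ
      have h1 := hcW _ (hWδ δ hδ)
      have h2 : ∑ k, c k * Tf δ (t k) = ∑ k, c k * δ (t k) -
          ∑ k, c k * (δ (Complex.exp (t k)) / Complex.exp (t k)) := by
        rw [← Finset.sum_sub_distrib]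
        refine Finset.sum_congr rfl fun k _ => ?_
        rw [Tf, lg]
        ring
      rw [h2, sub_eq_zero] at h1
      rw [← h1, map_sum]
      refine Finset.sum_congr rfl fun k _ => ?_
      rw [dmul, hδ (c k) (hcD k), zero_mul, zero_add]
    have hex := Pool.Agent.TH813.Ros.exact (Cst D) c (fun k => Complex.exp (t k)) hcD
      (fun k => Complex.exp_ne_zero _) _ hrel
    have hrat := Pool.Agent.TH813.Ros.rational (Cst D) c (fun k => Complex.exp (t k)) hcD
      (fun k => Complex.exp_ne_zero _) (fun δ hδ => by rw [← hrel δ hδ, hex δ hδ])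
    apply hc0
    funext k
    by_contra hck
    have hck : c k ≠ 0 := hck
    obtain ⟨ψ, hψ⟩ : ∃ ψ : ℂ →ₗ[ℚ] ℚ, ψ (c k) ≠ 0 := by
      by_contra hcon
      push Not at hcon
      exact hck ((Module.forall_dual_apply_eq_zero_iff ℚ (c k)).1 hcon)
    have h5 := hrat ψ D (D_mem D)
    have h6 : D (∑ k, ψ (c k) • t k) = 0 := by
      rw [map_sum, ← h5]
      refine Finset.sum_congr rfl fun k _ => ?_
      rw [D.map_smul, Rat.smul_def, D_exp (ht k), mul_div_cancel_left₀ _ (Complex.exp_ne_zero _)]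
    exact hψ (congrFun (hti _ h6) k)
  have h5 : v = (Sum.elim (fun p => (fun i k => v (Sum.inl (i, k))) p.1 p.2) 0 : Nf n s → ℂ) +
      (Sum.elim 0 (fun k => v (Sum.inr k)) : Nf n s → ℂ) := by
    funext p
    rcases p with p | p
    · exact (add_zero _).symm
    · exact (zero_add _).symm
  rw [h5]
  refine Submodule.add_mem _ (hl fun i k => v (Sum.inl (i, k))) ?_
  have h6 : (fun k => v (Sum.inr k)) ∈ W := by
    rw [hWtop]
    trivial
  exact h6

/-- the numbers of a family of period matrices -/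
def NX (X : Fin n → Qd) : Set ℂ := ⋃ i, {(X i).t, (X i).h, (X i).p, (X i).q}

theorem NX_finite (X : Fin n → Qd) : (NX X).Finite := Set.finite_iUnion fun _ => Set.toFinite _

theorem Th_kill {x : Qd} (h0 : δ x.t = 0) (h1 : δ x.h = 0) (h2 : δ x.p = 0) (h3 : δ x.q = 0) :
    Th b x δ = 0 := by
  have ea : fa x δ = 0 := by rw [fa, h2, h3]; ring
  have eb : fb x δ = 0 := by rw [fb, h2, h3]; ring
  apply ext3
  · rw [Th0, fu, ea, eb, h1, Pi.zero_apply]; ring
  · rw [Th1, fu, fv, ea, eb, h1, Pi.zero_apply]; ring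
  · rw [Th2, fu, fv, fs, ea, eb, h1, h0, Pi.zero_apply]; ring

/-- a horizontal derivation with `D t = 0` kills the parameter -/
theorem Dt_ne {x : Qd} (hx : x.Ok) (hb : b ≠ 0) (hD : Th b x D = 0) (hg : D (gg x) ≠ 0) :
    D x.t ≠ 0 := by
  intro h0
  apply hg
  have hu : fu b x D = 0 := congrFun hD 0
  have h1 := congrFun hD 1
  rw [Th1, hu, Pi.zero_apply] at h1
  have hv : fv x D = 0 := by linear_combination -h1
  have h2 := congrFun hD 2
  rw [Th2, hu, hv, fs, h0, Pi.zero_apply] at h2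
  have h3 : fb x D / b = 0 := by linear_combination -h2
  have h4 : fb x D = 0 := (div_eq_zero_iff.1 h3).resolve_right hb
  rw [d_gg hx, h4]
  ring

/-- **the rank theorem** -/
theorem Hyp.rank (h : Hyp b X D) (hn : 0 < n) (ht : ∀ k, Tf D (t k) = 0)
    (hti : ∀ q : Fin s → ℚ, D (∑ k, q k • t k) = 0 → q = 0) :
    ((3 * n + s + 1 : ℕ) : ℕ∞) ≤ (MK (Cst D)).eRk (NX X ∪ ET t) := by
  classical
  by_contra hcon
  push Not at hcon
  have hDt := Dt_ne (h.ok ⟨0, hn⟩) h.b0 (h.th _) (h.ng _)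
  set u := (X ⟨0, hn⟩).t with hu
  let f : DF (Cst D) →ₗ[ℂ] (Nf n s ⊕ Unit → ℂ) :=
    { toFun := fun δ => Sum.elim (Fo b X t (δ : Derivation ℚ ℂ ℂ))
        (fun _ => (δ : Derivation ℚ ℂ ℂ) u)
      map_add' := fun δ δ' => by
        funext k
        rcases k with k | k
        · exact congrFun Fo_add k
        · rfl
      map_smul' := fun c δ => by
        funext k
        rcases k with k | k
        · exact congrFun (Fo_smul c) k
        · rfl }
  obtain ⟨a, ha0, ha⟩ := exists_rel ((NX_finite X).union (ET_finite t)) f (fun δ hδ => by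
    have hk : ∀ i, ∀ z ∈ ({(X i).t, (X i).h, (X i).p, (X i).q} : Set ℂ),
        (δ : Derivation ℚ ℂ ℂ) z = 0 := fun i z hz => hδ z (Or.inl (Set.mem_iUnion.2 ⟨i, hz⟩))
    funext k
    rcases k with (⟨i, k⟩ | k) | k
    · change Th b (X i) (δ : Derivation ℚ ℂ ℂ) k = 0
      rw [Th_kill (hk i _ (by simp)) (hk i _ (by simp)) (hk i _ (by simp)) (hk i _ (by simp))]
      rfl
    · exact Tf_of_kill (hδ _ (Or.inr (Or.inl ⟨k, rfl⟩))) (hδ _ (Or.inr (Or.inr ⟨k, rfl⟩)))
    · exact hk ⟨0, hn⟩ _ (by simp [hu])) (by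
    rw [Fintype.card_sum, Fintype.card_sum, Fintype.card_prod, Fintype.card_fin, Fintype.card_fin,
      Fintype.card_fin, Fintype.card_unit, mul_comm n 3]
    exact hcon)
  apply ha0
  funext k
  obtain ⟨δ, hδ⟩ : ∃ δ : DF (Cst D), f δ = Pi.single k 1 := by
    obtain ⟨δ, hδ, h1⟩ := h.surj2 ht hti (fun p => Pi.single (M := fun _ => ℂ) k 1 (Sum.inl p))
    have hFD : Fo b X t D = 0 := by
      funext p
      rcases p with ⟨i, m⟩ | m
      · exact congrFun (h.th i) m
      · exact ht m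
    refine ⟨⟨δ + ((Pi.single (M := fun _ => ℂ) k 1 (Sum.inr ()) - δ u) / D u) • D,
      (DF _).add_mem hδ ((DF _).smul_mem _ (D_mem D))⟩, ?_⟩
    funext p
    rcases p with p | p
    · change Fo b X t (δ + ((Pi.single (M := fun _ => ℂ) k 1 (Sum.inr ()) - δ u) / D u) • D) p = _
      rw [Fo_add, Fo_smul, hFD, smul_zero, add_zero, h1]
    · change (δ + ((Pi.single (M := fun _ => ℂ) k 1 (Sum.inr ()) - δ u) / D u) • D) u = _
      rw [Derivation.add_apply, Derivation.smul_apply, smul_eq_mul, div_mul_cancel₀ _ hDt,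
        add_sub_cancel]
  have h2 := ha δ
  rw [hδ, Finset.sum_eq_single k] at h2
  · rw [Pi.single_eq_same, mul_one] at h2
    exact h2
  · intro j _ hj
    rw [Pi.single_eq_of_ne hj, mul_zero]
  · intro hc; exact absurd (Finset.mem_univ k) hc

end Pool.Agent.Y776.AxJ
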