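import Mathlib
import Pool.Agent.H73.G.R8.Y776.AxJ.Main
import Pool.Agent.H73.G.R8.Y776.Cv.Fix

/-!
# The numbers of a generic lattice can be moved freely
-/

set_option autoImplicit false

open Finset Module

noncomputable section

namespace Pool.Agent.Y776.AxJ

open H667R3 Pool.Agent.W245.EB
open Pool.Agent.Y685 Pool.Agent.TH813.Ell Pool.Agent.Y776 Pool.Agent.Y776.Fam
open Pool.Agent.TH813.Rel (DF MK exists_derF bracket_mem)

variable {τ : ℂ} {D δ : Derivation ℚ ℂ ℂ}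

/-- the numbers of the lattice `ℤ + ℤ τ` -/
def QL (τ : ℂ) : Qd := ⟨τ, h1 τ, (LC τ).g₂, (LC τ).g₃⟩

theorem QL_ok (h : AlgebraicIndependent k0 (yy τ)) : (QL τ).Ok := by
  refine ⟨?_, h.ne_zero 2, h.ne_zero 3⟩
  intro h0
  have h1 : (MvPolynomial.aeval (yy τ)) ((MvPolynomial.X 2 ^ 3 - 27 * MvPolynomial.X 3 ^ 2 :
      MvPolynomial (Fin 4) k0)) = 0 := by
    rw [map_sub, map_mul, map_pow, map_pow, MvPolynomial.aeval_X, MvPolynomial.aeval_X, map_ofNat]
    exact h0
  have h2 := (injective_iff_map_eq_zero _).1 h _ h1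
  have h3 := congrArg (MvPolynomial.eval (![0, 0, 1, 0] : Fin 4 → k0)) h2
  simp at h3

/-- the standard flow -/
theorem th_flow {x : Qd} {b : ℂ} (hb : b ≠ 0) (hD : Th b x D = 0) (ht : D x.t = 1) :
    fa x D = -(b * x.h) ∧ fb x D = b ∧ D x.h = b * x.h ^ 2 - b * x.p / 12 := by
  have hu : fu b x D = 0 := congrFun hD 0
  have h1 := congrFun hD 1
  rw [Th1, hu, Pi.zero_apply] at h1
  have hv : fv x D = 0 := by linear_combination -h1
  have h2 := congrFun hD 2
  rw [Th2, hu, hv, fs, ht, Pi.zero_apply] at h2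
  have h3 : fb x D / b = 1 := by linear_combination -h2
  have h4 : fb x D = b := by
    rw [div_eq_iff hb, one_mul] at h3
    exact h3
  have h5 : fa x D = -(b * x.h) := by
    rw [fv, h4] at hv
    linear_combination hv
  refine ⟨h5, h4, ?_⟩
  rw [fu, h5, h4] at hu
  have h6 := (mul_eq_zero.1 hu).resolve_left (neg_ne_zero.2 hb)
  linear_combination h6

theorem be0_ne : be0 ≠ 0 := by
  intro h0
  have h1 : be Complex.I = 0 := h0
  rw [be, div_eq_zero_iff] at h1
  exact (H2.task_A4 Complex.I (by simp)).2.2.2.2 (h1.resolve_left one_ne_zero)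

theorem free_LC (hτ : 0 < τ.im) (hT : τ ∉ T0) : Free be0 (QL τ) := by
  classical
  intro D hDb hD hg v
  have hai := T0_spec.2 τ hτ hT
  have hok := QL_ok hai
  have hDt : D τ ≠ 0 := Dt_ne hok be0_ne hD hg
  set D₁ : Derivation ℚ ℂ ℂ := (D τ)⁻¹ • D with hD₁
  have happ : ∀ z, D₁ z = (D τ)⁻¹ * D z := fun z => rfl
  have hTh : Th be0 (QL τ) D₁ = 0 := by rw [hD₁, Th_smul, hD, smul_zero]
  have hDt1 : D₁ (QL τ).t = 1 := by
    change D₁ τ = 1
    rw [happ, inv_mul_cancel₀ hDt]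
  have hbe := be_eq hτ
  obtain ⟨ha, hbb, hh⟩ := th_flow be0_ne hTh hDt1
  have hDb1 : D₁ be0 = 0 := by rw [happ, hDb, mul_zero]
  have hal : al τ = -(be0 * h1 τ) := by rw [al, hbe]
  have hcmp : Cmp k0 τ (fun i : Fin 0 => i.elim0) D₁ := by
    refine ⟨?_, hDt1, ?_, ?_, ?_, ?_, fun i => i.elim0, fun i => i.elim0⟩
    · have h1 : k0 ≤ (Cst D₁).toSubfield := by
        rw [k0, Subfield.closure_le]
        rintro _ rfl
        exact hDb1
      exact fun c hc => h1 hc
    · rw [hbe]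
      exact hh
    · have h1 := d_p (δ := D₁) hok.dl
      rw [ha, hbb] at h1
      rw [hbe, hal]
      exact h1
    · have h1 := d_q (δ := D₁) hok.dl
      rw [ha, hbb] at h1
      rw [hbe, hal]
      exact h1
    · rw [hbe]
      exact hDb1
  have hbk : be τ ∈ k0 := by
    rw [hbe]
    exact Subfield.subset_closure rfl
  have hg20 : (LC τ).g₂ ≠ 0 := hai.ne_zero 2
  obtain ⟨l₀, hl⟩ := IsAlgClosed.exists_pow_nat_eq ((LC τ).g₃ / (LC τ).g₂) (n := 2) two_pos
  have hl' : l₀ ^ 2 * (LC τ).g₂ = (LC τ).g₃ := by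
    rw [hl]
    field_simp
  have hG : Gp k0 τ l₀ (fun i : Fin 0 => i.elim0) D₁ := ⟨hτ, hbk, hai, hcmp, hl'⟩
  have hrank := rank_gp noBad (F := Cst D₁) hG (fun x hx => hx) (t := (![] : Fin 0 → ℂ))
    (fun i => i.elim0) (fun _ _ => Subsingleton.elim _ _) (fun i => i.elim0)
    (fun _ _ _ _ => Subsingleton.elim _ _)
  have hind : AlgebraicIndependent (Cst D₁) (yy τ) := by
    apply indep_of_rank
    rw [Fintype.card_fin]
    have h1 : Set.range (yy τ) ∪ (ET (![] : Fin 0 → ℂ) ∪ EP hG.Lh fun i : Fin 0 => l₀ * i.elim0) =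
        Set.range (yy τ) := by
      rw [ET, EP]
      simp only [Set.range_eq_empty, Set.union_empty]
    rw [h1] at hrank
    simpa using hrank
  obtain ⟨δ, hδ, hv⟩ := exists_derF (Cst D₁) hind v
  refine ⟨δ, fun z hz => hδ z ?_, hv 0, hv 1, hv 2, hv 3⟩
  change D₁ z = 0
  rw [happ, show D z = 0 from hz, mul_zero]

end Pool.Agent.Y776.AxJ
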