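import Mathlib
import Pool.Agent.H73.G.R8.Y776.AxJ.FreeLC
import Pool.Agent.H73.G.R8.Y776.Cv.Comp

/-!
# Independence over the field of constants at a generic point
-/

set_option autoImplicit false

open Finset Module Filter Topology MvPolynomial

noncomputable section

namespace Pool.Agent.Y776.AxJ

open Pool.Agent.Y685 Pool.Agent.TH813.Ell Pool.Agent.Y776.Fam
open Pool.Agent.TH813.Rel (DF MK exists_derF bracket_mem)

variable {U : Set ℂ} {F : IntermediateField ℚ ℂ} {κ κ' : Type} {f : κ → ℂ → ℂ} {z₀ : ℂ}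

theorem gn_sub (h : Gn U F f z₀) (e : κ' → κ) : Gn U F (fun k => f (e k)) z₀ := by
  intro P hP z hz
  have h1 := h (rename e P) (by
    rw [aeval_rename]
    exact hP) z hz
  rw [aeval_rename] at h1
  exact h1

/-- the derivation on finitely many values -/
theorem exists_Dfin (hU : IsOpen U) (hz : z₀ ∈ U) (hf : ∀ k, AnalyticOnNhd ℂ (f k) U)
    (hG : Gn U F f z₀) (k : κ) {J : Type} [Finite J] (c : J → κ) :
    ∃ D ∈ DF F, D (f k z₀) = deriv (f k) z₀ ∧ ∀ j, D (f (c j) z₀) = deriv (f (c j)) z₀ := by
  classical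
  have : Fintype J := Fintype.ofFinite J
  obtain ⟨D', hD', hDJ⟩ := exists_D (F := F) (κ := Option J)
    (f := fun o => f (Option.elim o k c)) hU hz (fun o => hf _)
    (gn_sub hG (fun o : Option J => Option.elim o k c))
  exact ⟨D', hD', hDJ none, fun j => hDJ (some j)⟩

/-- the derivation `d/dz` on the values of infinitely many functions at a generic point -/
theorem exists_Dinf (hU : IsOpen U) (hz : z₀ ∈ U) (hf : ∀ k, AnalyticOnNhd ℂ (f k) U)
    (hG : Gn U F f z₀) : ∃ D ∈ DF F, ∀ k, D (f k z₀) = deriv (f k) z₀ := by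
  classical
  obtain ⟨I, hI⟩ := (MK F).exists_isBasis (Set.range fun k => f k z₀) (Set.subset_univ _)
  have hind : AlgebraicIndependent F (fun i : I => (i : ℂ)) := hI.indep
  choose c hc using fun i : I => hI.subset i.2
  obtain ⟨D, hD, hDI⟩ := exists_derF F hind (fun i => deriv (f (c i)) z₀)
  refine ⟨D, hD, fun k => ?_⟩
  have hk : f k z₀ ∈ (MK F).closure I := by
    rw [hI.closure_eq_closure]
    exact (MK F).subset_closure _ (Set.subset_univ _) ⟨k, rfl⟩
  obtain ⟨J, hJI, hJf, -, hkJ⟩ := Matroid.exists_mem_finite_closure_of_mem_closure hk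
  have : Finite J := hJf
  obtain ⟨D', hD', hDk, hDJ⟩ := exists_Dfin hU hz hf hG k (fun j : J => c ⟨j, hJI j.2⟩)
  have h1 := (mem_cl_iff J _).1 hkJ (D - D') ((DF F).sub_mem hD hD') (fun j hj => by
    have e2 := hDI ⟨j, hJI hj⟩
    have e3 : f (c ⟨j, hJI hj⟩) z₀ = j := hc ⟨j, hJI hj⟩
    have e1 := hDJ ⟨j, hj⟩
    change D' (f (c ⟨j, hJI hj⟩) z₀) = deriv (f (c ⟨j, hJI hj⟩)) z₀ at e1
    rw [e3] at e1
    rw [Derivation.sub_apply, e1]
    change D j - _ = 0
    rw [show D j = deriv (f (c ⟨j, hJI hj⟩)) z₀ from e2, sub_self])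
  rw [Derivation.sub_apply, sub_eq_zero] at h1
  rw [h1, hDk]

/-- the formal derivative -/
def fd (C : IntermediateField ℚ ℂ) (d : κ → κ) :
    Derivation C (MvPolynomial κ C) (MvPolynomial κ C) :=
  mkDerivation C (fun k => X (d k))

variable {d : κ → κ} {D : Derivation ℚ ℂ ℂ}

theorem hasDeriv_fd (hf : ∀ k, AnalyticOnNhd ℂ (f k) U) {C : IntermediateField ℚ ℂ}
    (hd : ∀ k, ∀ z ∈ U, deriv (f k) z = f (d k) z) (P : MvPolynomial κ C) {z : ℂ} (hz : z ∈ U) :
    HasDerivAt (fun z => aeval (fun k => f k z) P) (aeval (fun k => f k z) (fd C d P)) z := by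
  induction P using MvPolynomial.induction_on with
  | C a =>
    have h1 : fd C d (MvPolynomial.C a) = 0 := derivation_C _ _
    rw [h1, map_zero]
    simp only [aeval_C]
    exact hasDerivAt_const _ _
  | add p q hp hq =>
    simp only [map_add]
    exact hp.add hq
  | mul_X p k hp =>
    have e1 : fd C d (p * X k) = p * X (d k) + X k * fd C d p := by
      rw [Derivation.leibniz, smul_eq_mul, smul_eq_mul, fd, mkDerivation_X]
    have e2 : aeval (fun k => f k z) (fd C d (p * X k)) =
        aeval (fun k => f k z) (fd C d p) * f k z + aeval (fun k => f k z) p * f (d k) z := by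
      rw [e1, map_add, map_mul, map_mul, aeval_X, aeval_X]
      ring
    have e3 : (fun z => aeval (fun k => f k z) (p * X k)) =
        fun z => aeval (fun k => f k z) p * f k z := by
      funext z
      rw [map_mul, aeval_X]
    have h1 := (hf k z hz).differentiableAt.hasDerivAt
    rw [hd k z hz] at h1
    rw [e2, e3]
    exact hp.mul h1

theorem D_aeval (hD : ∀ k, D (f k z₀) = f (d k) z₀) (P : MvPolynomial κ (Cst D)) :
    D (aeval (fun k => f k z₀) P) = aeval (fun k => f k z₀) (fd (Cst D) d P) := by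
  induction P using MvPolynomial.induction_on with
  | C a =>
    have h1 : fd (Cst D) d (MvPolynomial.C a) = 0 := derivation_C _ _
    rw [h1, map_zero, aeval_C]
    exact a.2
  | add p q hp hq => rw [map_add, map_add, map_add, map_add, hp, hq]
  | mul_X p k hp =>
    have e1 : fd (Cst D) d (p * X k) = p * X (d k) + X k * fd (Cst D) d p := by
      rw [Derivation.leibniz, smul_eq_mul, smul_eq_mul, fd, mkDerivation_X]
    have e2 : aeval (fun k => f k z₀) (p * X k) = aeval (fun k => f k z₀) p * f k z₀ := by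
      rw [map_mul, aeval_X]
    rw [e1, e2, dmul, hp, hD, map_add, map_mul, map_mul, aeval_X, aeval_X]
    ring

/-- **polynomials over the constants which vanish at the point vanish identically** -/
theorem zero_of_cst (hU : IsOpen U) (hc : IsPreconnected U) (hz : z₀ ∈ U)
    (hf : ∀ k, AnalyticOnNhd ℂ (f k) U) (hd : ∀ k, ∀ z ∈ U, deriv (f k) z = f (d k) z)
    (hD : ∀ k, D (f k z₀) = deriv (f k) z₀) (P : MvPolynomial κ (Cst D))
    (hP : aeval (fun k => f k z₀) P = 0) (z : ℂ) (hzU : z ∈ U) : aeval (fun k => f k z) P = 0 := by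
  have hD' : ∀ k, D (f k z₀) = f (d k) z₀ := fun k => by rw [hD, hd k z₀ hz]
  have h1 : ∀ r, aeval (fun k => f k z₀) ((fd (Cst D) d)^[r] P) = 0 := by
    intro r
    induction r with
    | zero => exact hP
    | succ r ih =>
      rw [Function.iterate_succ_apply', ← D_aeval hD', ih, map_zero]
  have h2 : ∀ r, ∀ z ∈ U, iteratedDeriv r (fun z => aeval (fun k => f k z) P) z =
      aeval (fun k => f k z) ((fd (Cst D) d)^[r] P) := by
    intro r
    induction r with
    | zero => intro z _; rfl
    | succ r ih =>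
      intro z hz
      rw [iteratedDeriv_succ, Function.iterate_succ_apply']
      have h3 : iteratedDeriv r (fun z => aeval (fun k => f k z) P) =ᶠ[𝓝 z]
          fun z => aeval (fun k => f k z) ((fd (Cst D) d)^[r] P) := by
        filter_upwards [hU.mem_nhds hz] with w hw
        exact ih w hw
      rw [h3.deriv_eq]
      exact (hasDeriv_fd hf hd _ hz).deriv
  have han : AnalyticOnNhd ℂ (fun z => aeval (fun k => f k z) P) U := by
    have h4 : DifferentiableOn ℂ (fun z => aeval (fun k => f k z) P) U := fun z hz =>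
      (hasDeriv_fd hf hd P hz).differentiableAt.differentiableWithinAt
    exact h4.analyticOnNhd hU
  have h5 : analyticOrderAt (fun z => aeval (fun k => f k z) P) z₀ = ⊤ := by
    rw [ENat.eq_top_iff_forall_ge]
    intro n
    rw [natCast_le_analyticOrderAt_iff_iteratedDeriv_eq_zero (han z₀ hz)]
    intro i _
    rw [h2 i z₀ hz, h1]
  rw [analyticOrderAt_eq_top] at h5
  exact han.eqOn_zero_of_preconnected_of_eventuallyEq_zero hc hz h5 hzU

/-- **functions which are independent over the complex numbers have values which are independent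
over the constants** -/
theorem const_indep (hU : IsOpen U) (hc : IsPreconnected U) (hz : z₀ ∈ U)
    (hf : ∀ k, AnalyticOnNhd ℂ (f k) U) (hd : ∀ k, ∀ z ∈ U, deriv (f k) z = f (d k) z)
    (hD : ∀ k, D (f k z₀) = deriv (f k) z₀) {ι : Type} (e : ι → κ)
    (hl : Pool.Agent.Y776.Cv.FInd U (fun i => f (e i))) :
    AlgebraicIndependent (Cst D) (fun i => f (e i) z₀) := by
  rw [algebraicIndependent_iff]
  intro P hP
  have h1 := zero_of_cst hU hc hz hf hd hD (rename e P) (by
    rw [aeval_rename]
    exact hP)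
  have h2 := hl (MvPolynomial.map (algebraMap (Cst D) ℂ) P) (fun z hz => by
    have h3 := h1 z hz
    rw [aeval_rename] at h3
    rw [eval_map, ← aeval_def]
    exact h3)
  exact (MvPolynomial.map_injective _ (algebraMap (Cst D) ℂ).injective) (by rw [h2, map_zero])

end Pool.Agent.Y776.AxJ
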