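import Mathlib
import Pool.Agent.H73.G.R8.Y776.AxJ.FreeLC

/-!
# The modular invariant and its derivatives
-/

set_option autoImplicit false

open Finset Module Filter Topology

noncomputable section

namespace Pool.Agent.Y776.AxJ

open H667R3 Pool.Agent.W245.EB
open Pool.Agent.Y685 Pool.Agent.TH813.Ell Pool.Agent.Y776 Pool.Agent.Y776.Fam
open Pool.Agent.TH813.Rel (DF MK exists_derF bracket_mem)

variable {τ : ℂ}

theorem der_h (hτ : 0 < τ.im) :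
    HasDerivAt h1 (be0 * h1 τ ^ 2 - be0 * (LC τ).g₂ / 12) τ := by
  have h := (H2.task_A4 τ hτ).1
  rwa [be_eq hτ] at h

theorem der_p (hτ : 0 < τ.im) : HasDerivAt (fun s => (LC s).g₂)
    (4 * be0 * h1 τ * (LC τ).g₂ - 6 * be0 * (LC τ).g₃) τ := by
  have h := (H2.task_A4 τ hτ).2.1
  rw [al, be_eq hτ] at h
  convert h using 1
  ring

theorem der_q (hτ : 0 < τ.im) : HasDerivAt (fun s => (LC s).g₃)
    (6 * be0 * h1 τ * (LC τ).g₃ - be0 * (LC τ).g₂ ^ 2 / 3) τ := by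
  have h := (H2.task_A4 τ hτ).2.2.1
  rw [al, be_eq hτ] at h
  convert h using 1
  ring

theorem isOpen_H : IsOpen {τ : ℂ | 0 < τ.im} := isOpen_lt continuous_const Complex.continuous_im

theorem preconn_H : IsPreconnected {τ : ℂ | 0 < τ.im} :=
  (convex_halfSpace_im_gt 0).isPreconnected

theorem an_of_der {f f' : ℂ → ℂ} (h : ∀ τ : ℂ, 0 < τ.im → HasDerivAt f (f' τ) τ) :
    AnalyticOnNhd ℂ f {τ : ℂ | 0 < τ.im} :=
  DifferentiableOn.analyticOnNhd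
    (fun τ hτ => (h τ hτ).differentiableAt.differentiableWithinAt) isOpen_H

theorem an_h : AnalyticOnNhd ℂ h1 {τ : ℂ | 0 < τ.im} := an_of_der fun _ h => der_h h
theorem an_p : AnalyticOnNhd ℂ (fun s => (LC s).g₂) {τ : ℂ | 0 < τ.im} :=
  an_of_der fun _ h => der_p h
theorem an_q : AnalyticOnNhd ℂ (fun s => (LC s).g₃) {τ : ℂ | 0 < τ.im} :=
  an_of_der fun _ h => der_q h

/-- the discriminant -/
def dlf (τ : ℂ) : ℂ := (LC τ).g₂ ^ 3 - 27 * (LC τ).g₃ ^ 2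

theorem der_dl (hτ : 0 < τ.im) : HasDerivAt dlf (12 * be0 * h1 τ * dlf τ) τ := by
  have h := ((der_p hτ).pow 3).sub (((der_q hτ).pow 2).const_mul 27)
  refine HasDerivAt.congr_deriv (f := dlf) h ?_
  rw [dlf]
  push_cast
  ring

theorem an_dl : AnalyticOnNhd ℂ dlf {τ : ℂ | 0 < τ.im} := an_of_der fun _ h => der_dl h

/-- the discriminant has no zeros -/
theorem dlf_ne (hτ : 0 < τ.im) : dlf τ ≠ 0 := by
  intro h0
  have ha := an_dl τ hτ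
  have hord : analyticOrderAt dlf τ ≠ ⊤ := by
    rw [Ne, analyticOrderAt_eq_top]
    intro h1
    have h2 := an_dl.eqOn_zero_of_preconnected_of_eventuallyEq_zero preconn_H hτ h1
    obtain ⟨σ, hσ, hσT⟩ := exists_notMem isOpen_H ⟨τ, hτ⟩ T0_spec.1
    have h3 := (QL_ok (T0_spec.2 σ hσ hσT)).dl
    exact h3 (h2 hσ)
  obtain ⟨m, hm⟩ := ENat.ne_top_iff_exists.1 hord
  have hm0 : m ≠ 0 := by
    rintro rfl
    exact (ha.analyticOrderAt_eq_zero.1 hm.symm) h0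
  obtain ⟨k, rfl⟩ := Nat.exists_eq_succ_of_ne_zero hm0
  have h4 : analyticOrderAt (deriv dlf) τ = k :=
    analyticOrderAt_deriv_of_pos ha (by rw [← hm]; push_cast; rfl)
  have h5 : deriv dlf =ᶠ[𝓝 τ] (fun σ => 12 * be0 * h1 σ) * dlf := by
    filter_upwards [isOpen_H.mem_nhds hτ] with σ hσ
    exact (der_dl hσ).deriv
  have hga : AnalyticAt ℂ (fun σ => 12 * be0 * h1 σ) τ := analyticAt_const.mul (an_h τ hτ)
  rw [analyticOrderAt_congr h5, analyticOrderAt_mul hga ha, ← hm] at h4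
  have h6 : ((k.succ : ℕ) : ℕ∞) ≤ k := by
    rw [← h4]
    exact le_add_self
  have h7 : k.succ ≤ k := by exact_mod_cast h6
  omega

theorem der_j (hτ : 0 < τ.im) :
    HasDerivAt jf (-31104 * be0 * (LC τ).g₂ ^ 2 * (LC τ).g₃ / dlf τ) τ := by
  have hd := dlf_ne hτ
  have h := (((der_p hτ).pow 3).const_mul 1728).div (der_dl hτ) hd
  refine HasDerivAt.congr_deriv (f := jf) h ?_
  push_cast
  simp only [Pi.pow_apply]
  field_simp
  ring

theorem an_j : AnalyticOnNhd ℂ jf {τ : ℂ | 0 < τ.im} := an_of_der fun _ h => der_j h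

theorem deriv_j (hτ : 0 < τ.im) :
    deriv jf τ = -31104 * be0 * (LC τ).g₂ ^ 2 * (LC τ).g₃ / dlf τ := (der_j hτ).deriv

theorem der_dj (hτ : 0 < τ.im) : HasDerivAt (deriv jf) (-31104 * be0 ^ 2 *
    (2 * h1 τ * (LC τ).g₂ ^ 2 * (LC τ).g₃ - 12 * (LC τ).g₂ * (LC τ).g₃ ^ 2 - (LC τ).g₂ ^ 4 / 3) /
      dlf τ) τ := by
  have hd := dlf_ne hτ
  have h := ((((der_p hτ).pow 2).mul (der_q hτ)).const_mul (-31104 * be0)).div (der_dl hτ) hd
  have h2 : (fun s => -31104 * be0 * ((LC s).g₂ ^ 2 * (LC s).g₃) / dlf s) =ᶠ[𝓝 τ] deriv jf := by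
    filter_upwards [isOpen_H.mem_nhds hτ] with σ hσ
    rw [deriv_j hσ]
    ring
  refine (HasDerivAt.congr_deriv (f := fun s => -31104 * be0 * ((LC s).g₂ ^ 2 * (LC s).g₃) / dlf s)
    h ?_).congr_of_eventuallyEq h2.symm
  push_cast
  simp only [Pi.mul_apply, Pi.pow_apply]
  field_simp
  ring

theorem deriv_dj (hτ : 0 < τ.im) : deriv (deriv jf) τ = -31104 * be0 ^ 2 *
    (2 * h1 τ * (LC τ).g₂ ^ 2 * (LC τ).g₃ - 12 * (LC τ).g₂ * (LC τ).g₃ ^ 2 - (LC τ).g₂ ^ 4 / 3) /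
      dlf τ := (der_dj hτ).deriv

/-- the lattice numbers in terms of the invariant and its derivatives -/
theorem mem_of_j (hτ : 0 < τ.im) (hok : (QL τ).Ok) {K : IntermediateField ℚ ℂ} (hb : be0 ∈ K)
    (m0 : jf τ ∈ K) (m1 : deriv jf τ ∈ K) (m2 : deriv (deriv jf) τ ∈ K) :
    h1 τ ∈ K ∧ (LC τ).g₂ ∈ K ∧ (LC τ).g₃ ∈ K := by
  have hd := dlf_ne hτ
  have hb0 := be0_ne
  have hp : (LC τ).g₂ ≠ 0 := hok.p0
  have hq : (LC τ).g₃ ≠ 0 := hok.q0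
  have hj : jf τ = 1728 * (LC τ).g₂ ^ 3 / dlf τ := rfl
  have hj0 : jf τ ≠ 0 := by
    rw [hj]
    exact div_ne_zero (mul_ne_zero (by norm_num) (pow_ne_zero 3 hp)) hd
  have hj1 : jf τ - 1728 = 1728 * 27 * (LC τ).g₃ ^ 2 / dlf τ := by
    rw [hj]
    field_simp
    rw [dlf]
    ring
  have hj2 : jf τ - 1728 ≠ 0 := by
    rw [hj1]
    exact div_ne_zero (mul_ne_zero (by norm_num) (pow_ne_zero 2 hq)) hd
  set ρ : ℂ := -(deriv jf τ) / (18 * be0 * jf τ) with hρ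
  have hρe : ρ = (LC τ).g₃ / (LC τ).g₂ := by
    rw [hρ, deriv_j hτ, hj]
    field_simp
    ring
  have n18 : (18 : ℂ) ∈ K := ofNat_mem K 18
  have mρ : ρ ∈ K := div_mem (neg_mem m1) (mul_mem (mul_mem n18 hb) m0)
  have mp : (LC τ).g₂ ∈ K := by
    have h1 : (LC τ).g₂ = 27 * jf τ * ρ ^ 2 / (jf τ - 1728) := by
      rw [hj1, hρe, hj]
      field_simp
    rw [h1]
    exact div_mem (mul_mem (mul_mem (ofNat_mem K 27) m0) (pow_mem mρ 2))
      (sub_mem m0 (ofNat_mem K 1728))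
  have mq : (LC τ).g₃ ∈ K := by
    have h1 : (LC τ).g₃ = ρ * (LC τ).g₂ := by
      rw [hρe]
      field_simp
    rw [h1]
    exact mul_mem mρ mp
  have mdl : dlf τ ∈ K := sub_mem (pow_mem mp 3) (mul_mem (ofNat_mem K 27) (pow_mem mq 2))
  refine ⟨?_, mp, mq⟩
  have h1 : h1 τ = (-(deriv (deriv jf) τ) * dlf τ / (31104 * be0 ^ 2) +
      12 * (LC τ).g₂ * (LC τ).g₃ ^ 2 + (LC τ).g₂ ^ 4 / 3) / (2 * (LC τ).g₂ ^ 2 * (LC τ).g₃) := by
    rw [deriv_dj hτ]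
    field_simp
    ring
  rw [h1]
  refine div_mem (add_mem (add_mem (div_mem (mul_mem (neg_mem m2) mdl)
    (mul_mem (ofNat_mem K 31104) (pow_mem hb 2))) (mul_mem (mul_mem (ofNat_mem K 12) mp)
    (pow_mem mq 2))) (div_mem (pow_mem mp 4) (ofNat_mem K 3)))
    (mul_mem (mul_mem (ofNat_mem K 2) (pow_mem mp 2)) mq)

/-- the parameter in terms of the invariant -/
theorem gg_of_j (hτ : 0 < τ.im) (hok : (QL τ).Ok) : jf τ ≠ 1728 ∧
    gg (QL τ) = 27 * jf τ / (jf τ - 1728) ∧ jf τ = 1728 * gg (QL τ) / (gg (QL τ) - 27) := by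
  have hd := dlf_ne hτ
  have hp : (LC τ).g₂ ≠ 0 := hok.p0
  have hq : (LC τ).g₃ ≠ 0 := hok.q0
  have hj : jf τ = 1728 * (LC τ).g₂ ^ 3 / dlf τ := rfl
  have hj1 : jf τ - 1728 = 1728 * 27 * (LC τ).g₃ ^ 2 / dlf τ := by
    rw [hj]
    field_simp
    rw [dlf]
    ring
  have hj2 : jf τ - 1728 ≠ 0 := by
    rw [hj1]
    exact div_ne_zero (mul_ne_zero (by norm_num) (pow_ne_zero 2 hq)) hd
  refine ⟨sub_ne_zero.1 hj2, ?_, ?_⟩
  · rw [hj1, hj]
    change (LC τ).g₂ ^ 3 / (LC τ).g₃ ^ 2 = _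
    field_simp
  · rw [gg_sub hok, hj]
    change _ = 1728 * ((LC τ).g₂ ^ 3 / (LC τ).g₃ ^ 2) / (dlf τ / (LC τ).g₃ ^ 2)
    field_simp

end Pool.Agent.Y776.AxJ
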