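import Mathlib
import Pool.Agent.H73.G.R8.Y776.AxJ.Fun

/-!
# All functions of a family are independent
-/

set_option autoImplicit false

open Finset Module Filter Topology

noncomputable section

namespace Pool.Agent.Y776.AxJ

open H667R3 Pool.Agent.W245.EB
open Pool.Agent.Y685 Pool.Agent.TH813.Ell Pool.Agent.Y776 Pool.Agent.Y776.Fam
open Pool.Agent.TH813.Rel (DF MK exists_derF bracket_mem rk_le_of_subset_cl)
open Pool.Agent.Y776.Cv (FInd eRk_anti)

variable {n s : ℕ} {U : Set ℂ} {τ : Fin n → ℂ → ℂ} {w : Fin s → ℂ → ℂ}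

theorem locInd_equiv {κ κ' : Type} {y : κ → ℂ → ℂ} (e : κ' ≃ κ) {t : ℂ}
    (h : Y124.LocInd (fun k => y (e k)) t) : Y124.LocInd y t := by
  intro P hP
  have h2 : ∀ᶠ t in 𝓝 t, MvPolynomial.eval (fun o : Option κ' => o.elim t
      fun k => y (e k) t) (MvPolynomial.rename (Option.map e.symm) P) = 0 := by
    filter_upwards [hP] with t ht
    rw [MvPolynomial.eval_rename]
    rw [← ht]
    congr 2
    funext o
    rcases o with _ | k
    · rfl
    · simp
  have h3 := h _ h2
  have h4 : Function.Injective (Option.map e.symm) := Option.map_injective e.symm.injective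
  exact (MvPolynomial.rename_injective _ h4) (by rw [h3, map_zero])

/-- **all functions of a family are independent** -/
theorem loc_all (h : Fmj U τ w) (hn : 0 < n) {κ : Type} [Fintype κ] {y : κ → ℂ → ℂ}
    (hy : ∀ k, AnalyticOnNhd ℂ (y k) U) (hκ : Fintype.card κ = 3 * n + s) {G : Set ℂ}
    (hG : G.Countable)
    (hsub : ∀ F : IntermediateField ℚ ℂ, G ⊆ F → ∀ z ∈ U, ¬ IsAlgebraic F z → ∀ k,
      yj τ w k z ∈ clo F (insert z (Set.range fun k => y k z))) :
    ∀ t ∈ U, Y124.LocInd y t := by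
  classical
  obtain ⟨zs, hzs⟩ := h.ne
  obtain ⟨F, hFc, hF⟩ := exists_cf (T := (TS y zs ∪ {be0}) ∪ G)
    (((TS_countable _ _).union (Set.countable_singleton _)).union hG)
  obtain ⟨z₀, hz₀, hnot⟩ := exists_notMem h.op h.ne (countable_Gpt h hFc)
  have hg : Gpt U τ w F z₀ := by
    by_contra hcon
    exact hnot ⟨hz₀, hcon⟩
  have hr := rank_pt h hn (hF (Or.inl (Or.inr rfl))) hg
  obtain ⟨e, he, hL⟩ := Pool.Agent.Y776.Cv.exists_sub h.conn h.op hy hzs
    (fun x hx => hF (Or.inl (Or.inl hx))) hz₀ hg.tr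
    (hr.trans (rk_le_of_subset_cl (by
      rintro _ ⟨k, rfl⟩
      rw [← mem_clo_iff]
      exact hsub F (fun x hx => hF (Or.inr hx)) z₀ hz₀ hg.tr k)))
  have hb : Function.Bijective e :=
    (Fintype.bijective_iff_injective_and_card e).2 ⟨he, by rw [Fintype.card_fin, hκ]⟩
  exact fun t ht => locInd_equiv (Equiv.ofBijective e hb) (hL t ht)

end Pool.Agent.Y776.AxJ
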